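import Mathlib

set_option autoImplicit false

/-! Module KN-03. The divisible part of a module over `k[D]` with finite dimensional socle
(pure linear algebra).

PROOF. `D` maps `E` to itself, write `K = E ⊓ ker D` (finite dimensional). The submodules
`C_m = (D^m E) ⊓ ker D ≤ K` are decreasing in `m`, so `C_m = C` for `m ≥ m₀`. `C ≠ ⊥`: otherwise
`D^m E ⊓ ker D = ⊥` for some `m`, so by local nilpotency `D^m E = ⊥`, so `E ≤ ker D^m`, and
`dim (E ⊓ ker D^m) ≤ m dim K` (induction: `D` maps `E ⊓ ker D^(m+1)` to `E ⊓ ker D^m` with kernel `K`),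
contradiction to `hinf`. Let `E''` be the infimum of all `D^m E` (`= Submodule.map (D^m) E`). Claim: every
`f ∈ E''` is `D h` with `h ∈ E''`: write `f = D h_m`, `h_m ∈ D^m E`; for `m' ≥ m ≥ m₀`:
`h_m - h_{m'} ∈ D^m E ⊓ ker D = C ≤ D^{m'} E`, so `h_{m₀} ∈ D^{m'} E` for all `m' ≥ m₀`, so `h_{m₀} ∈ E''`.
Also `C ≤ E''`. By dependent choice every `e ∈ C` is the first term of a sequence in `E''`. Conversely for
a sequence as in the last statement `F m = D^j (F (m + j))`, so `F 0 ∈ D^j E ⊓ ker D` for all `j`. -/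

namespace Pool.Agent.Helper93.KN

open Module

section

variable {k V : Type*} [Field k] [AddCommGroup V] [Module k V] (D : V →ₗ[k] V)
  (E : Submodule k V)

private theorem ch_succ (hDE : ∀ f ∈ E, D f ∈ E) (m : ℕ) :
    Submodule.map (D ^ (m + 1)) E ≤ Submodule.map (D ^ m) E := by
  rintro _ ⟨g, hg, rfl⟩
  refine ⟨D g, hDE g hg, ?_⟩
  rw [pow_succ]
  rfl

private theorem ch_anti (hDE : ∀ f ∈ E, D f ∈ E) :
    Antitone fun m : ℕ => Submodule.map (D ^ m) E :=
  antitone_nat_of_succ_le (ch_succ D E hDE)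

private theorem ch_stable (m : ℕ) (hDE : ∀ f ∈ E, D f ∈ E) {f : V}
    (hf : f ∈ Submodule.map (D ^ m) E) : D f ∈ Submodule.map (D ^ m) E := by
  obtain ⟨g, hg, rfl⟩ := hf
  refine ⟨D g, hDE g hg, ?_⟩
  show (D ^ m * D) g = (D * D ^ m) g
  rw [← pow_succ, ← pow_succ']

private theorem ch_fin (hDE : ∀ f ∈ E, D f ∈ E)
    (hfin : FiniteDimensional k (E ⊓ LinearMap.ker D : Submodule k V)) (m : ℕ) :
    FiniteDimensional k (E ⊓ LinearMap.ker (D ^ m) : Submodule k V) := by
  induction m with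
  | zero =>
    have h : (E ⊓ LinearMap.ker (D ^ 0) : Submodule k V) = ⊥ := by
      rw [eq_bot_iff]
      intro x hx
      exact hx.2
    rw [h]
    infer_instance
  | succ m ih =>
    have h1 : (Submodule.map D (E ⊓ LinearMap.ker (D ^ (m + 1)))) ≤
        E ⊓ LinearMap.ker (D ^ m) := by
      rintro _ ⟨g, hg, rfl⟩
      refine ⟨hDE g hg.1, ?_⟩
      have h2 : (D ^ (m + 1)) g = 0 := hg.2
      rw [pow_succ] at h2
      exact h2
    have h2 : (E ⊓ LinearMap.ker (D ^ (m + 1))) ⊓ LinearMap.ker D ≤ E ⊓ LinearMap.ker D :=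
      fun x hx => ⟨hx.1.1, hx.2⟩
    have h3 := Submodule.finiteDimensional_of_le h1
    have h4 := Submodule.finiteDimensional_of_le h2
    rw [← Submodule.fg_iff_finiteDimensional] at h3 h4 ⊢
    exact Submodule.fg_of_fg_map_of_fg_inf_ker D h3 h4

private theorem ch_ne_bot (hDE : ∀ f ∈ E, D f ∈ E) (hnil : ∀ f ∈ E, ∃ m : ℕ, (D ^ m) f = 0)
    (hfin : FiniteDimensional k (E ⊓ LinearMap.ker D : Submodule k V))
    (hinf : ¬ FiniteDimensional k E) (m : ℕ) :
    (Submodule.map (D ^ m) E ⊓ LinearMap.ker D : Submodule k V) ≠ ⊥ := by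
  intro hbot
  have hle0 : Submodule.map (D ^ m) E ≤ E := by
    have h := ch_anti D E hDE (Nat.zero_le m)
    intro x hx
    obtain ⟨y, hy, hxy⟩ := h hx
    rw [← hxy]
    exact hy
  have hnilall : ∀ f ∈ Submodule.map (D ^ m) E, f = 0 := by
    classical
    intro f hf
    by_contra hne
    have hex := hnil f (hle0 hf)
    have hmin := fun j => Nat.find_min hex (m := j)
    have hspec := Nat.find_spec hex
    obtain ⟨j, hj⟩ : ∃ j, Nat.find hex = j + 1 := by
      refine Nat.exists_eq_succ_of_ne_zero ?_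
      intro h0
      rw [h0] at hspec
      exact hne hspec
    rw [hj] at hspec
    have hstab : ∀ i : ℕ, (D ^ i) f ∈ Submodule.map (D ^ m) E := by
      intro i
      induction i with
      | zero => exact hf
      | succ i ih =>
        rw [pow_succ']
        exact ch_stable D E m hDE ih
    have hin : (D ^ j) f ∈ (Submodule.map (D ^ m) E ⊓ LinearMap.ker D : Submodule k V) := by
      refine ⟨hstab j, ?_⟩
      rw [pow_succ'] at hspec
      exact hspec
    rw [hbot] at hin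
    exact hmin j (by omega) hin
  have hE : E ≤ E ⊓ LinearMap.ker (D ^ m) := fun x hx => ⟨hx, hnilall _ ⟨x, hx, rfl⟩⟩
  have := ch_fin D E hDE hfin m
  exact hinf (Submodule.finiteDimensional_of_le hE)

end

theorem exists_seq {k V : Type*} [Field k] [AddCommGroup V] [Module k V] (D : V →ₗ[k] V)
    (E : Submodule k V) (hDE : ∀ f ∈ E, D f ∈ E) (hnil : ∀ f ∈ E, ∃ m : ℕ, (D ^ m) f = 0)
    (hfin : FiniteDimensional k (E ⊓ LinearMap.ker D : Submodule k V))
    (hinf : ¬ FiniteDimensional k E) :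
    ∃ C : Submodule k V, C ≤ E ⊓ LinearMap.ker D ∧ C ≠ ⊥ ∧
      (∀ e ∈ C, ∃ F : ℕ → V, F 0 = e ∧ (∀ m, F m ∈ E) ∧ ∀ m, D (F (m + 1)) = F m) ∧
      ∀ F : ℕ → V, (∀ m, F m ∈ E) → (∀ m, D (F (m + 1)) = F m) → D (F 0) = 0 → F 0 ∈ C := by
  set P : ℕ → Submodule k V := fun m => Submodule.map (D ^ m) E with hP
  have hanti : Antitone P := ch_anti D E hDE
  have hP0 : P 0 = E := by
    ext x
    constructor
    · rintro ⟨y, hy, rfl⟩
      exact hy
    · intro hx
      exact ⟨x, hx, rfl⟩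
  set K : ℕ → Submodule k V := fun m => P m ⊓ LinearMap.ker D with hK
  have hKanti : Antitone K := fun a b hab => inf_le_inf_right _ (hanti hab)
  have hK0 : K 0 = E ⊓ LinearMap.ker D := by
    show P 0 ⊓ _ = _
    rw [hP0]
  have hKfin : ∀ m, FiniteDimensional k (K m) := by
    intro m
    have h1 : K m ≤ E ⊓ LinearMap.ker D := hK0 ▸ hKanti (Nat.zero_le m)
    exact Submodule.finiteDimensional_of_le h1
  obtain ⟨m₀, hm₀⟩ : ∃ m₀, ∀ m, m₀ ≤ m → K m = K m₀ := by
    classical
    have hex : ∃ r, ∃ m, finrank k (K m) = r := ⟨_, 0, rfl⟩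
    obtain ⟨m₀, hm₀⟩ := Nat.find_spec hex
    refine ⟨m₀, fun m hm => ?_⟩
    have h1 : K m ≤ K m₀ := hKanti hm
    have := hKfin m₀
    refine Submodule.eq_of_le_of_finrank_le h1 ?_
    rw [hm₀]
    exact Nat.find_min' hex ⟨m, rfl⟩
  have hdown : ∀ m, P m ≤ E := fun m => hP0 ▸ hanti (Nat.zero_le m)
  have hCP : ∀ c ∈ K m₀, ∀ m, c ∈ P m := by
    intro c hc m
    rcases le_total m₀ m with h | h
    · rw [← hm₀ m h] at hc
      exact hc.1
    · exact hanti h hc.1
  have hlift : ∀ f : V, (∀ m, f ∈ P m) → ∃ h : V, (∀ m, h ∈ P m) ∧ D h = f := by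
    intro f hf
    have h1 : ∀ m, ∃ h ∈ P m, D h = f := by
      intro m
      obtain ⟨g, hg, hgf⟩ := hf (m + 1)
      refine ⟨(D ^ m) g, ⟨g, hg, rfl⟩, ?_⟩
      rw [← hgf, pow_succ']
      rfl
    choose h hmem hD using h1
    refine ⟨h m₀, fun m => ?_, hD m₀⟩
    rcases le_total m₀ m with hm | hm
    · have h2 : h m₀ - h m ∈ K m₀ := by
        refine ⟨(P m₀).sub_mem (hmem m₀) (hanti hm (hmem m)), ?_⟩
        show D (h m₀ - h m) = 0
        rw [map_sub, hD, hD, sub_self]
      have h3 := hCP _ h2 m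
      have h4 := (P m).add_mem h3 (hmem m)
      rwa [sub_add_cancel] at h4
    · exact hanti hm (hmem m₀)
  refine ⟨K m₀, ?_, ch_ne_bot D E hDE hnil hfin hinf m₀, ?_, ?_⟩
  · exact hK0 ▸ hKanti (Nat.zero_le m₀)
  · intro e he
    choose! s hs1 hs2 using hlift
    have hall : ∀ j : ℕ, ∀ m, (s^[j] e) ∈ P m := by
      intro j
      induction j with
      | zero => exact hCP e he
      | succ j ih =>
        rw [Function.iterate_succ_apply']
        exact hs1 _ ih
    refine ⟨fun j => s^[j] e, rfl, fun j => hdown 0 (hall j 0), fun j => ?_⟩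
    show D (s^[j + 1] e) = s^[j] e
    rw [Function.iterate_succ_apply']
    exact hs2 _ (hall j)
  · intro F hF hDF h0
    have h1 : ∀ j : ℕ, (D ^ j) (F j) = F 0 := by
      intro j
      induction j with
      | zero => rfl
      | succ j ih =>
        rw [pow_succ]
        show (D ^ j) (D (F (j + 1))) = F 0
        rw [hDF j, ih]
    exact ⟨⟨F m₀, hF m₀, h1 m₀⟩, h0⟩

end Pool.Agent.Helper93.KN
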