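import Pool.Agent.Helper93.KN.PVal

set_option autoImplicit false

/-! Module KN-01. Derivatives and values.

PROOF of `exists_pderiv_eq`: let `φ : MvPolynomial σ k →ₐ (MvPolynomial σ k)[T]` be
`X_j ↦ C (X_j)` for `j ≠ i`, `X_i ↦ C (X_i) + T`. Then `eval (C c) (φ f) = shift (Pi.single i c) f`
(check on variables) and the coefficient of `T` of `φ f` is `pderiv i f` (both sides satisfy the
Leibniz rule with `coeff 0 (φ f) = f`; `MvPolynomial.induction_on`, or `Polynomial.derivative` at
`0`). With `d = natDegree (φ f)` and the nodes `0, 1, ..., d + 1 ∈ k` (distinct, `CharZero`) the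
Vandermonde matrix is invertible, so there are `a_l ∈ k` with `∑ a_l l^m = δ_{m,1}` for
`m ≤ d + 1`, and `pderiv i f = ∑ a_l • shift (Pi.single i l) f`.

`nonpos`: strong induction on `totalDegree f`: if `f` is constant, `v f = 0`; otherwise some
`pderiv i f ≠ 0` has smaller total degree, and `v f ≤ v (pderiv i f) ≤ 0` by `Ge.pderiv`. -/

namespace Pool.Agent.Helper93.KN

open MvPolynomial

variable {k σ : Type*} [Field k] [CharZero k] [DecidableEq σ]

omit [CharZero k] in
/-- Taylor expansion in the direction of `X i`. -/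
noncomputable def tay (i : σ) : MvPolynomial σ k →ₐ[k] Polynomial (MvPolynomial σ k) :=
  aeval fun j => Polynomial.C (X j) + (if j = i then Polynomial.X else 0)

omit [CharZero k] in
lemma tay_C (i : σ) (c : k) : tay i (C c : MvPolynomial σ k) = Polynomial.C (C c) := by
  unfold tay
  rw [← algebraMap_eq, AlgHom.commutes]
  rfl

omit [CharZero k] in
lemma tay_X (i j : σ) : tay i (X j : MvPolynomial σ k) =
    Polynomial.C (X j) + (if j = i then Polynomial.X else 0) := by
  unfold tay
  rw [aeval_X]

omit [CharZero k] in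
lemma eval_tay (i : σ) (c : k) (f : MvPolynomial σ k) :
    (tay i f).eval (C c) = shift (Pi.single i c) f := by
  induction f using MvPolynomial.induction_on with
  | C a => rw [tay_C, Polynomial.eval_C, shift_C]
  | add p q hp hq => rw [map_add, Polynomial.eval_add, hp, hq, map_add]
  | mul_X p j hp =>
    rw [map_mul, Polynomial.eval_mul, hp, map_mul, tay_X, shift_X]
    congr 1
    by_cases h : j = i
    · subst h
      simp
    · simp [h]

omit [CharZero k] in
lemma tay_coeff_zero (i : σ) (f : MvPolynomial σ k) : (tay i f).coeff 0 = f := by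
  rw [Polynomial.coeff_zero_eq_eval_zero]
  have h := eval_tay i (0 : k) f
  rw [C_0, Pi.single_zero, shift_zero] at h
  exact h

omit [CharZero k] in
lemma tay_coeff_one (i : σ) (f : MvPolynomial σ k) : (tay i f).coeff 1 = pderiv i f := by
  induction f using MvPolynomial.induction_on with
  | C a => rw [tay_C, Polynomial.coeff_C, if_neg one_ne_zero, pderiv_C]
  | add p q hp hq => rw [map_add, Polynomial.coeff_add, hp, hq, map_add]
  | mul_X p j hp =>
    rw [map_mul, tay_X, pderiv_mul, mul_add, Polynomial.coeff_add, Polynomial.coeff_mul_C, hp]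
    by_cases h : j = i
    · subst h
      rw [if_pos rfl, pderiv_X_self, mul_one, Polynomial.coeff_mul_X, tay_coeff_zero]
    · rw [if_neg h, pderiv_X_of_ne h, mul_zero, mul_zero, Polynomial.coeff_zero]

/-- The partial derivatives are linear combinations of translates. -/
theorem exists_pderiv_eq (i : σ) (f : MvPolynomial σ k) :
    ∃ (n : ℕ) (a : Fin n → k) (c : Fin n → k),
      pderiv i f = ∑ l, C (a l) * shift (Pi.single i (c l)) f := by
  set P := tay i f with hP
  set n := P.natDegree + 2 with hn
  let v : Fin n → k := fun l => ((l : ℕ) : k)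
  have hv : Function.Injective v := fun l m h => Fin.ext (Nat.cast_injective h)
  let A := Matrix.vandermonde v
  have hdet : IsUnit A.det := isUnit_iff_ne_zero.2 (Matrix.det_vandermonde_ne_zero_iff.2 hv)
  let one' : Fin n := ⟨1, by omega⟩
  let a : Fin n → k := Matrix.vecMul (Pi.single one' 1) A⁻¹
  have ha : Matrix.vecMul a A = Pi.single one' 1 := by
    show Matrix.vecMul (Matrix.vecMul (Pi.single one' 1) A⁻¹) A = _
    rw [Matrix.vecMul_vecMul, Matrix.nonsing_inv_mul A hdet, Matrix.vecMul_one]
  have ha' : ∀ m : Fin n, ∑ l, a l * v l ^ (m : ℕ) = if m = one' then 1 else 0 := by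
    intro m
    have h1 := congrFun ha m
    rw [Matrix.vecMul, dotProduct] at h1
    rw [Pi.single_apply] at h1
    rw [← h1]
    rfl
  refine ⟨n, a, v, ?_⟩
  have h1 : ∀ l : Fin n, C (a l) * shift (Pi.single i (v l)) f =
      ∑ m : Fin n, P.coeff m * C (a l * v l ^ (m : ℕ)) := by
    intro l
    rw [← eval_tay, ← hP, Polynomial.eval_eq_sum_range' (n := n) (by omega), Finset.mul_sum,
      ← Fin.sum_univ_eq_sum_range (fun m => C (a l) * (P.coeff m * C (v l) ^ m)) n]
    refine Finset.sum_congr rfl fun m _ => ?_
    rw [C_mul, C_pow]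
    ring
  rw [Finset.sum_congr rfl fun l _ => h1 l, Finset.sum_comm]
  have h2 : ∀ m : Fin n, ∑ l, P.coeff m * C (a l * v l ^ (m : ℕ)) =
      if m = one' then P.coeff m else 0 := by
    intro m
    rw [← Finset.mul_sum, ← map_sum, ha' m]
    split_ifs
    · rw [C_1, mul_one]
    · rw [C_0, mul_zero]
  rw [Finset.sum_congr rfl fun m _ => h2 m, Finset.sum_ite_eq' Finset.univ one',
    if_pos (Finset.mem_univ _)]
  exact (tay_coeff_one i f).symm

theorem PVal.Ge.pderiv {v : PVal k σ} {n : ℚ} {f : MvPolynomial σ k} (hf : v.Ge n f) (i : σ) :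
    v.Ge n (MvPolynomial.pderiv i f) := by
  obtain ⟨m, a, c, h⟩ := exists_pderiv_eq i f
  rw [h]
  exact Ge.sum fun l _ => (hf.shift _).C_mul _

omit [DecidableEq σ] in
/-- A polynomial with vanishing partial derivatives is constant. -/
lemma eq_C_of_pderiv {f : MvPolynomial σ k} (h : ∀ i, pderiv i f = 0) : f = C (coeff 0 f) := by
  classical
  ext m
  rw [coeff_C]
  split_ifs with h0
  · rw [h0]
  · obtain ⟨i, hi⟩ := Finsupp.ne_iff.1 (Ne.symm h0)
    have h1 : m = (m - Finsupp.single i 1) + Finsupp.single i 1 := by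
      rw [tsub_add_cancel_of_le]
      intro j
      by_cases hj : i = j
      · subst hj
        rw [Finsupp.single_eq_same]
        rw [Finsupp.coe_zero, Pi.zero_apply] at hi
        omega
      · rw [Finsupp.single_apply, if_neg hj]
        exact Nat.zero_le _
    have h2 := coeff_pderiv (i := i) f (m - Finsupp.single i 1)
    rw [h i, coeff_zero, ← h1] at h2
    rcases mul_eq_zero.1 h2.symm with h3 | h3
    · exact h3
    · exfalso
      have h4 : (((m - Finsupp.single i 1 : σ →₀ ℕ) i + 1 : ℕ) : k) = 0 := by
        rw [Nat.cast_add, Nat.cast_one]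
        exact h3
      exact Nat.succ_ne_zero _ (Nat.cast_eq_zero.1 h4)

omit [CharZero k] [DecidableEq σ] in
lemma totalDegree_pderiv_lt {f : MvPolynomial σ k} {i : σ} (h : pderiv i f ≠ 0) :
    (pderiv i f).totalDegree < f.totalDegree := by
  classical
  have key : ∀ s ∈ (pderiv i f).support, (s.sum fun _ e => e) + 1 ≤ f.totalDegree := by
    intro s hs
    rw [mem_support_iff, coeff_pderiv] at hs
    have h1 : s + Finsupp.single i 1 ∈ f.support := by
      rw [mem_support_iff]
      exact left_ne_zero_of_mul hs
    have h2 := le_totalDegree h1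
    rw [Finsupp.sum_add_index' (fun _ => rfl) (fun _ _ _ => rfl),
      Finsupp.sum_single_index rfl] at h2
    exact h2
  obtain ⟨s, hs⟩ := Finset.nonempty_iff_ne_empty.2 (fun hh => h (support_eq_empty.1 hh))
  have hpos : 0 < f.totalDegree := by
    have := key s hs
    omega
  rw [totalDegree, Finset.sup_lt_iff (by simpa using hpos)]
  intro t ht
  have := key t ht
  omega

theorem PVal.nonpos (v : PVal k σ) {f : MvPolynomial σ k} (hf : f ≠ 0) : v f ≤ 0 := by
  induction hn : f.totalDegree using Nat.strong_induction_on generalizing f with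
  | _ n ih =>
    by_cases h : ∀ i, MvPolynomial.pderiv i f = 0
    · rw [eq_C_of_pderiv h, v.map_C]
    · push Not at h
      obtain ⟨i, hi⟩ := h
      have h1 := ih _ (hn ▸ totalDegree_pderiv_lt hi) hi rfl
      have h2 := (PVal.ge_self (v := v) f).pderiv i
      rw [PVal.ge_iff hi] at h2
      have h3 : v f ≤ v (MvPolynomial.pderiv i f) := by exact_mod_cast h2
      exact h3.trans h1

/-- If `v (X i) ≥ 0` for all `i` then `v f = 0` for all nonzero `f`. -/
theorem PVal.eq_zero_of_nonneg (v : PVal k σ) (h : ∀ i, v.Ge 0 (X i)) (f : MvPolynomial σ k) :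
    v f = 0 := by
  by_cases hf : f = 0
  · rw [hf, v.map_zero]
  · have h1 : ∀ g : MvPolynomial σ k, v.Ge 0 g := by
      intro g
      induction g using MvPolynomial.induction_on with
      | C a => exact PVal.ge_C le_rfl a
      | add p q hp hq => exact hp.add hq
      | mul_X p j hp =>
        have h2 := hp.mul (h j)
        rwa [add_zero] at h2
    have h2 := (PVal.ge_iff hf).1 (h1 f)
    have h3 : 0 ≤ v f := by exact_mod_cast h2
    exact le_antisymm (v.nonpos hf) h3

end Pool.Agent.Helper93.KN
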