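import Pool.Agent.Helper93.KN.ShiftLem

set_option autoImplicit false

/-! Module KN-07. The logarithmic derivative of the semi-invariant series.

PROOF of `gauss`: we may replace `m₀` by the first index where the value `μ = v (coeff m₀ B)` is
attained (by a nonzero coefficient). Suppose some `coeff m A` is nonzero of value `< 0`. The values
are integers bounded below by `n`, let `ν < 0` be the least value of a nonzero coefficient of `A`,
first attained at `m₁`. In `coeff (m₁ + m₀) (A * B) = ∑_{i + j = m₁ + m₀} A_i B_j` the term `(m₁, m₀)` is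
nonzero of value `ν + μ`, all other terms have `i < m₁` or `j < m₀`, so they have `Ge (ν + μ + 1)`. The
sum has `Ge μ` and `μ ≥ ν + μ + 1`, so the term `A_{m₁} B_{m₀}` has `Ge (ν + μ + 1)`: contradiction.

PROOF of `exists_linear`: `Φ` is a unit of `PowerSeries S` (`PowerSeries.isUnit_iff_constantCoeff`,
`C γ` is a unit); let `Ψ` be its inverse and `λ = Φ' Ψ`, `Φ' = PowerSeries.derivative`. Applying `d/dX` to
`map (shift a) Φ = map C χ * Φ` (derivation commutes with `map`) and multiplying by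
`map (shift a) Ψ`: `map (shift a) λ = map C (χ' χ⁻¹) + λ` (`χ` is a unit because its constant coefficient
is nonzero: `C (χ₀) * C γ = shift a (C γ) ≠ 0`). So every coefficient of `λ` satisfies the hypothesis of
`affine_of_shift`. Let `coeff 0 λ = C c₀ + ∑ C (c i) X i`. For `a₀`: `χ = (1 + X)^b`,
`χ' χ⁻¹ = b (1 + X)⁻¹`, so `shift a₀ λ₀ = λ₀ + C b` and `c ≠ 0` as `b ≠ 0` in `k`. Let `v` be as in the
statement. All coefficients of `λ` are affine linear, so they have `Ge n'` where
`n' = min 0 (min_i v (X i))` (`σ` finite). `Φ ≠ 0` has coefficients with values bounded below: let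
`m₀` be an index of a nonzero coefficient of least value `μ`. `coeff m Φ' = (m + 1) coeff (m + 1) Φ` has
`Ge μ`, and `Φ' = λ Φ`. `gauss` gives `Ge 0 (coeff 0 λ)`, so `Ge 0 (∑ C (c i) X i)` (subtract `C c₀`). -/

namespace Pool.Agent.Helper93.KN

open MvPolynomial

private theorem kn07_exists_least {k σ : Type*} [Field k] (v : PVal k σ)
    {A : PowerSeries (MvPolynomial σ k)} {n : ℚ} (hA : ∀ m, v.Ge n (PowerSeries.coeff m A))
    (h : ∃ m, PowerSeries.coeff m A ≠ 0) :
    ∃ m, PowerSeries.coeff m A ≠ 0 ∧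
      ∀ m', PowerSeries.coeff m' A ≠ 0 → v (PowerSeries.coeff m A) ≤ v (PowerSeries.coeff m' A) := by
  obtain ⟨m, hm⟩ := h
  obtain ⟨z, ⟨m₁, h1, h2⟩, h3⟩ := Int.exists_least_of_bdd
    (P := fun z : ℤ => ∃ m, PowerSeries.coeff m A ≠ 0 ∧ v (PowerSeries.coeff m A) = z)
    ⟨⌈n⌉, by
      rintro z ⟨m', hm', rfl⟩
      have := hA m'
      rw [PVal.ge_iff hm'] at this
      exact Int.ceil_le.2 this⟩
    ⟨_, m, hm, rfl⟩
  refine ⟨m₁, h1, fun m' hm' => ?_⟩
  rw [h2]
  exact h3 _ ⟨m', hm', rfl⟩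

theorem gauss {k σ : Type*} [Field k] (v : PVal k σ) {A B : PowerSeries (MvPolynomial σ k)} {n : ℚ}
    (hA : ∀ m, v.Ge n (PowerSeries.coeff m A)) {m₀ : ℕ} (hB0 : PowerSeries.coeff m₀ B ≠ 0)
    (hB : ∀ m, v.Ge (v (PowerSeries.coeff m₀ B)) (PowerSeries.coeff m B))
    (hAB : ∀ m, v.Ge (v (PowerSeries.coeff m₀ B)) (PowerSeries.coeff m (A * B))) (m : ℕ) :
    v.Ge 0 (PowerSeries.coeff m A) := by
  classical
  by_contra hcon
  have hm : PowerSeries.coeff m A ≠ 0 := by
    intro h0
    exact hcon (Or.inl h0)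
  have hmneg : v (PowerSeries.coeff m A) < 0 := by
    by_contra h
    push Not at h
    apply hcon
    rw [PVal.ge_iff hm]
    exact_mod_cast h
  obtain ⟨m₁', h1', h2'⟩ := kn07_exists_least v hA ⟨m, hm⟩
  set ν := v (PowerSeries.coeff m₁' A) with hν
  have hν0 : ν < 0 := lt_of_le_of_lt (h2' m hm) hmneg
  have hP : ∃ i, PowerSeries.coeff i A ≠ 0 ∧ v (PowerSeries.coeff i A) = ν := ⟨m₁', h1', rfl⟩
  set μ := v (PowerSeries.coeff m₀ B) with hμ
  have hQ : ∃ j, PowerSeries.coeff j B ≠ 0 ∧ v (PowerSeries.coeff j B) = μ := ⟨m₀, hB0, rfl⟩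
  obtain ⟨hp1, hp2⟩ := Nat.find_spec hP
  obtain ⟨hq1, hq2⟩ := Nat.find_spec hQ
  set p := Nat.find hP with hp
  set q := Nat.find hQ with hq
  have hAge : ∀ i, v.Ge (ν : ℚ) (PowerSeries.coeff i A) := by
    intro i
    by_cases h0 : PowerSeries.coeff i A = 0
    · exact Or.inl h0
    · rw [PVal.ge_iff h0]
      exact_mod_cast h2' i h0
  have hAgt : ∀ i < p, v.Ge ((ν : ℚ) + 1) (PowerSeries.coeff i A) := by
    intro i hi
    by_cases h0 : PowerSeries.coeff i A = 0
    · exact Or.inl h0
    · rw [PVal.ge_iff h0]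
      have h3 := Nat.find_min hP hi
      have h4 : v (PowerSeries.coeff i A) ≠ ν := fun h5 => h3 ⟨h0, h5⟩
      have h5 : ν + 1 ≤ v (PowerSeries.coeff i A) := by
        have := h2' i h0
        omega
      exact_mod_cast h5
  have hBgt : ∀ j < q, v.Ge ((μ : ℚ) + 1) (PowerSeries.coeff j B) := by
    intro j hj
    by_cases h0 : PowerSeries.coeff j B = 0
    · exact Or.inl h0
    · rw [PVal.ge_iff h0]
      have h3 := Nat.find_min hQ hj
      have h4 : v (PowerSeries.coeff j B) ≠ μ := fun h5 => h3 ⟨h0, h5⟩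
      have h6 := hB j
      rw [PVal.ge_iff h0] at h6
      have h7 : μ ≤ v (PowerSeries.coeff j B) := by exact_mod_cast h6
      have h5 : μ + 1 ≤ v (PowerSeries.coeff j B) := by
        omega
      exact_mod_cast h5
  have hsum := PowerSeries.coeff_mul (p + q) A B
  have hmem : (p, q) ∈ Finset.HasAntidiagonal.antidiagonal (p + q) := by simp
  rw [← Finset.add_sum_erase _ _ hmem] at hsum
  have hrest : v.Ge ((ν : ℚ) + μ + 1) (∑ x ∈ (Finset.HasAntidiagonal.antidiagonal (p + q)).erase (p, q),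
      PowerSeries.coeff x.1 A * PowerSeries.coeff x.2 B) := by
    apply PVal.Ge.sum
    rintro ⟨i, j⟩ hij
    rw [Finset.mem_erase, Finset.HasAntidiagonal.mem_antidiagonal] at hij
    obtain ⟨hne, hsum2⟩ := hij
    simp only at hsum2 ⊢
    rcases lt_or_ge i p with hi | hi
    · exact ((hAgt i hi).mul (hB j)).mono (by linarith)
    · have hj : j < q := by
        rcases Nat.lt_or_ge j q with h | h
        · exact h
        · exfalso
          apply hne
          have h8 : i = p := by omega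
          have h9 : j = q := by omega
          rw [h8, h9]
      exact ((hAge i).mul (hBgt j hj)).mono (by linarith)
  have hAB' : v.Ge ((ν : ℚ) + μ + 1) (PowerSeries.coeff (p + q) (A * B)) := by
    apply (hAB (p + q)).mono
    have : (ν : ℚ) + 1 ≤ 0 := by exact_mod_cast hν0
    linarith
  have hprod : v.Ge ((ν : ℚ) + μ + 1) (PowerSeries.coeff p A * PowerSeries.coeff q B) := by
    have h8 := hAB'.sub hrest
    rw [hsum, add_sub_cancel_right] at h8
    exact h8
  rw [PVal.ge_iff (mul_ne_zero hp1 hq1), v.map_mul hp1 hq1, hp2, hq2] at hprod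
  push_cast at hprod
  linarith

private theorem kn07_affine_ge {k σ : Type*} [Field k] [Fintype σ] (v : PVal k σ) (c₀ : k)
    (c : σ → k) :
    v.Ge (-(∑ i, |(v (X i : MvPolynomial σ k) : ℚ)|)) (C c₀ + ∑ i, C (c i) * X i) := by
  have hnn : (0 : ℚ) ≤ ∑ i, |(v (X i : MvPolynomial σ k) : ℚ)| :=
    Finset.sum_nonneg fun i _ => abs_nonneg _
  refine (PVal.ge_C (by linarith) c₀).add (PVal.Ge.sum fun i _ => PVal.Ge.C_mul ?_ _)
  right
  have h1 : |(v (X i : MvPolynomial σ k) : ℚ)| ≤ ∑ i, |(v (X i : MvPolynomial σ k) : ℚ)| :=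
    Finset.single_le_sum (f := fun i => |(v (X i : MvPolynomial σ k) : ℚ)|)
      (fun j _ => abs_nonneg _) (Finset.mem_univ i)
  have h2 := neg_abs_le (v (X i : MvPolynomial σ k) : ℚ)
  linarith

private theorem kn07_coeff_pow {R : Type*} [CommRing R] (b : ℕ) :
    PowerSeries.coeff 0 ((1 + PowerSeries.X : PowerSeries R) ^ b) = 1 ∧
      PowerSeries.coeff 1 ((1 + PowerSeries.X : PowerSeries R) ^ b) = b := by
  induction b with
  | zero => simp [PowerSeries.coeff_one]
  | succ b ih =>
    obtain ⟨h0, h1⟩ := ih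
    constructor
    · simp
    · rw [pow_succ, mul_add, mul_one, map_add, h1,
        show (1 : ℕ) = 0 + 1 from rfl, PowerSeries.coeff_succ_mul_X, h0]
      push_cast
      ring

private theorem kn07_map_derivative {R S : Type*} [CommRing R] [CommRing S] (f : R →+* S)
    (F : PowerSeries R) :
    PowerSeries.map f (PowerSeries.derivative R F) =
      PowerSeries.derivative S (PowerSeries.map f F) := by
  ext n
  simp [PowerSeries.coeff_derivative]

theorem exists_linear {k σ : Type*} [Field k] [CharZero k] [Fintype σ] (a₀ : σ → k) {b : ℕ}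
    (hb : 0 < b) {Φ : PowerSeries (MvPolynomial σ k)} {γ : k} (hγ : γ ≠ 0)
    (h0 : PowerSeries.coeff 0 Φ = C γ)
    (hχ : ∀ a : σ → k, ∃ χ : PowerSeries k,
      PowerSeries.map (shift a : MvPolynomial σ k →+* MvPolynomial σ k) Φ =
        PowerSeries.map (C : k →+* MvPolynomial σ k) χ * Φ)
    (ha₀ : PowerSeries.map (shift a₀ : MvPolynomial σ k →+* MvPolynomial σ k) Φ =
      (1 + PowerSeries.X) ^ b * Φ) :
    ∃ c : σ → k, c ≠ 0 ∧ ∀ v : PVal k σ, (∃ n : ℚ, ∀ m, v.Ge n (PowerSeries.coeff m Φ)) →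
      v.Ge 0 (∑ i, C (c i) * X i) := by
  classical
  set D := PowerSeries.derivative (MvPolynomial σ k) with hD
  have hunit : IsUnit Φ := by
    rw [PowerSeries.isUnit_iff_constantCoeff]
    rw [← PowerSeries.coeff_zero_eq_constantCoeff_apply, h0]
    exact (isUnit_iff_ne_zero.2 hγ).map (C : k →+* MvPolynomial σ k)
  obtain ⟨Ψ, hΨ⟩ := hunit.exists_right_inv
  set L := D Φ * Ψ with hL
  have hLΦ : L * Φ = D Φ := by
    rw [hL, mul_assoc, mul_comm Ψ Φ, hΨ, mul_one]
  have hshift : ∀ a : σ → k, ∃ τ : PowerSeries k,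
      PowerSeries.map (shift a : MvPolynomial σ k →+* MvPolynomial σ k) L =
        L + PowerSeries.map (C : k →+* MvPolynomial σ k) τ := by
    intro a
    obtain ⟨χ, hχa⟩ := hχ a
    have hχ0 : PowerSeries.constantCoeff χ ≠ 0 := by
      intro hz
      have h1 := congrArg (PowerSeries.coeff 0) hχa
      rw [PowerSeries.coeff_map, h0, PowerSeries.coeff_zero_eq_constantCoeff_apply, map_mul,
        ← PowerSeries.coeff_zero_eq_constantCoeff_apply, PowerSeries.coeff_map,
        PowerSeries.coeff_zero_eq_constantCoeff_apply, hz, map_zero, zero_mul] at h1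
      have h2 : shift a (C γ : MvPolynomial σ k) = 0 := h1
      rw [shift_C] at h2
      exact hγ ((C_eq_zero).1 h2)
    have hinv : χ * χ⁻¹ = 1 := PowerSeries.mul_inv_cancel χ hχ0
    refine ⟨PowerSeries.derivative k χ * χ⁻¹, ?_⟩
    have hd := congrArg D hχa
    rw [hD, ← kn07_map_derivative, Derivation.leibniz, smul_eq_mul, smul_eq_mul,
      ← kn07_map_derivative] at hd
    rw [← hD] at hd
    set s : PowerSeries (MvPolynomial σ k) →+* PowerSeries (MvPolynomial σ k) :=
      PowerSeries.map (shift a : MvPolynomial σ k →+* MvPolynomial σ k) with hs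
    set c : PowerSeries k →+* PowerSeries (MvPolynomial σ k) :=
      PowerSeries.map (C : k →+* MvPolynomial σ k) with hc
    have h3 : c χ * Φ * s Ψ = 1 := by
      rw [← hχa, ← map_mul, hΨ, map_one]
    have h4 : c χ * c χ⁻¹ = 1 := by
      rw [← map_mul, hinv, map_one]
    rw [hL, map_mul, hd, map_mul]
    -- (c χ * D Φ + Φ * c χ') * s Ψ = D Φ * Ψ + c χ' * c χ⁻¹
    have h5 : c χ * s Ψ = Ψ := by
      calc c χ * s Ψ = c χ * s Ψ * (Φ * Ψ) := by rw [hΨ, mul_one]
        _ = (c χ * Φ * s Ψ) * Ψ := by ring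
        _ = Ψ := by rw [h3, one_mul]
    have h6 : Φ * s Ψ = c χ⁻¹ := by
      calc Φ * s Ψ = Φ * s Ψ * (c χ * c χ⁻¹) := by rw [h4, mul_one]
        _ = (c χ * Φ * s Ψ) * c χ⁻¹ := by ring
        _ = c χ⁻¹ := by rw [h3, one_mul]
    calc (c χ * D Φ + Φ * c (PowerSeries.derivative k χ)) * s Ψ
        = D Φ * (c χ * s Ψ) + c (PowerSeries.derivative k χ) * (Φ * s Ψ) := by ring
      _ = D Φ * Ψ + c (PowerSeries.derivative k χ) * c χ⁻¹ := by rw [h5, h6]
  have haff : ∀ m, ∃ (c₀ : k) (c : σ → k),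
      PowerSeries.coeff m L = C c₀ + ∑ i, C (c i) * X i := by
    intro m
    apply affine_of_shift
    intro a
    obtain ⟨τ, hτ⟩ := hshift a
    refine ⟨PowerSeries.coeff m τ, ?_⟩
    have h1 := congrArg (PowerSeries.coeff m) hτ
    rw [PowerSeries.coeff_map, map_add, PowerSeries.coeff_map] at h1
    exact h1
  obtain ⟨c₀, c, hc⟩ := haff 0
  -- the coefficient of degree zero
  have hL0 : PowerSeries.coeff 0 L * C γ = PowerSeries.coeff 1 Φ := by
    have h1 := congrArg (PowerSeries.coeff 0) hLΦ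
    rw [PowerSeries.coeff_zero_eq_constantCoeff_apply, map_mul,
      ← PowerSeries.coeff_zero_eq_constantCoeff_apply,
      ← PowerSeries.coeff_zero_eq_constantCoeff_apply, h0, hD,
      PowerSeries.coeff_derivative] at h1
    rw [h1]
    simp
  have hsh1 : shift a₀ (PowerSeries.coeff 1 Φ) = PowerSeries.coeff 1 Φ + C ((b : k) * γ) := by
    have h1 := congrArg (PowerSeries.coeff 1) ha₀
    rw [PowerSeries.coeff_map, PowerSeries.coeff_mul] at h1
    have h2 : Finset.HasAntidiagonal.antidiagonal 1 = {((0 : ℕ), (1 : ℕ)), (1, 0)} := by decide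
    rw [h2, Finset.sum_pair (by decide)] at h1
    simp only at h1
    rw [(kn07_coeff_pow b).1, (kn07_coeff_pow b).2, h0, one_mul] at h1
    have h3 : shift a₀ (PowerSeries.coeff 1 Φ) = PowerSeries.coeff 1 Φ + (b : MvPolynomial σ k) * C γ := h1
    rw [h3, C_mul]
    simp
  have hsh0 : shift a₀ (PowerSeries.coeff 0 L) = PowerSeries.coeff 0 L + C (b : k) := by
    have h1 : (C γ : MvPolynomial σ k) ≠ 0 := by
      rw [Ne, C_eq_zero]
      exact hγ
    apply mul_right_cancel₀ h1
    have h2 := hsh1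
    rw [← hL0, map_mul, shift_C] at h2
    rw [h2, add_mul, C_mul]
  have hsum : ∑ i, c i * a₀ i = (b : k) := by
    rw [hc, map_add, shift_C, map_sum] at hsh0
    have h1 : ∑ i, shift a₀ (C (c i) * X i : MvPolynomial σ k) =
        ∑ i, C (c i) * X i + C (∑ i, c i * a₀ i) := by
      rw [map_sum, ← Finset.sum_add_distrib]
      refine Finset.sum_congr rfl fun i _ => ?_
      rw [map_mul, shift_C, shift_X, mul_add, C_mul]
    rw [h1, ← add_assoc] at hsh0
    have h2 := add_left_cancel hsh0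
    exact C_injective _ _ h2
  refine ⟨c, ?_, ?_⟩
  · rintro rfl
    simp only [Pi.zero_apply, zero_mul, Finset.sum_const_zero] at hsum
    exact (Nat.cast_ne_zero.2 hb.ne') hsum.symm
  · rintro v ⟨n, hn⟩
    have hC : (C γ : MvPolynomial σ k) ≠ 0 := by
      rw [Ne, C_eq_zero]
      exact hγ
    obtain ⟨m₀, hm0, hm1⟩ := kn07_exists_least v hn ⟨0, by rw [h0]; exact hC⟩
    have hB : ∀ m, v.Ge (v (PowerSeries.coeff m₀ Φ)) (PowerSeries.coeff m Φ) := by
      intro m
      by_cases hz : PowerSeries.coeff m Φ = 0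
      · exact Or.inl hz
      · rw [PVal.ge_iff hz]
        exact_mod_cast hm1 m hz
    have hg := gauss v (A := L) (B := Φ) (n := -(∑ i, |(v (X i : MvPolynomial σ k) : ℚ)|))
      (by
        intro m
        obtain ⟨d₀, d, hd⟩ := haff m
        rw [hd]
        exact kn07_affine_ge v d₀ d) hm0 hB
      (by
        intro m
        rw [hLΦ, hD, PowerSeries.coeff_derivative]
        have h1 := (hB (m + 1)).C_mul ((m : k) + 1)
        have h2 : PowerSeries.coeff (m + 1) Φ * ((m : MvPolynomial σ k) + 1) =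
            C ((m : k) + 1) * PowerSeries.coeff (m + 1) Φ := by
          rw [mul_comm, C_add, C_1]
          simp
        rw [h2]
        exact h1) 0
    have h3 := hg.sub (PVal.ge_C (v := v) le_rfl c₀)
    rw [hc, add_sub_cancel_left] at h3
    exact h3

end Pool.Agent.Helper93.KN
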