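import Pool.Agent.Helper93.KN.Phi
import Pool.Agent.Helper93.KN.Gauss

set_option autoImplicit false

/-! Module KN-08. The finiteness theorem.

PROOF. For a finite set `s` of variables let `E_s` be the submodule of all `f ∈ filtAll v a` with
`shift (Pi.single j 1) f = f` for all `j ∉ s`. By induction on `s` (`Finset.induction_on`) `E_s` is
finite dimensional; `s = univ` gives the theorem. `E_∅` consists of constants (`eq_C_of_shift`). Let
`j ∉ s`, `E = E_{insert j s}`, `a₀ = Pi.single j 1`. `E` is stable under all `shift a` (`Ge.shift`,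
`shift_comm`), and `E ⊓ ker (shift a₀ - 1)` is `E_s`, finite dimensional by induction. If `E` were not
finite dimensional, `exists_phi` and `exists_linear` give `c ≠ 0` such that every `v i` has
`Ge 0 (∑ C (c j) X j)`: the elements of `E ^ b` have `(v i).Ge (-(b * a i))` (`Submodule.pow_induction_on_left'`
or `Submodule.pow_succ` and `Submodule.mul_le`). This contradicts `h`. -/

namespace Pool.Agent.Helper93.KN

open MvPolynomial

private theorem kn08_pow_le {k σ : Type*} [Field k] (v : PVal k σ) (n : ℚ)
    (E : Submodule k (MvPolynomial σ k)) (hE : E ≤ v.filt n) (b : ℕ) :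
    E ^ b ≤ v.filt (b * n) := by
  induction b with
  | zero =>
    rw [pow_zero, Submodule.one_le]
    rw [PVal.mem_filt, ← C_1]
    exact PVal.ge_C (by simp) 1
  | succ b ih =>
    rw [pow_succ, Submodule.mul_le]
    intro f hf g hg
    have h1 := PVal.mem_filt.1 (ih hf)
    have h2 := PVal.mem_filt.1 (hE hg)
    rw [PVal.mem_filt]
    refine (h1.mul h2).mono ?_
    push_cast
    linarith

theorem heart {k σ ι : Type*} [Field k] [CharZero k] [Fintype σ] (v : ι → PVal k σ)
    (h : ∀ c : σ → k, (∀ i, (v i).Ge 0 (∑ j, C (c j) * X j)) → c = 0) (a : ι → ℚ) :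
    FiniteDimensional k (filtAll v a) := by
  classical
  set E : Finset σ → Submodule k (MvPolynomial σ k) := fun s =>
    filtAll v a ⊓ ⨅ j : {j // j ∉ s},
      LinearMap.ker ((shift (Pi.single (j : σ) (1 : k))).toLinearMap - LinearMap.id) with hEdef
  have hmem : ∀ s f, f ∈ E s ↔
      f ∈ filtAll v a ∧ ∀ j, j ∉ s → shift (Pi.single j (1 : k)) f = f := by
    intro s f
    rw [hEdef]
    simp only [Submodule.mem_inf, Submodule.mem_iInf, LinearMap.mem_ker, LinearMap.sub_apply,
      AlgHom.toLinearMap_apply, LinearMap.id_apply, sub_eq_zero, Subtype.forall]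
  have hfilt : ∀ s, E s ≤ filtAll v a := fun s => inf_le_left
  have key : ∀ s, FiniteDimensional k (E s) := by
    intro s
    induction s using Finset.induction_on with
    | empty =>
      have hle : E ∅ ≤ LinearMap.range (Algebra.linearMap k (MvPolynomial σ k)) := by
        intro f hf
        rw [hmem] at hf
        obtain ⟨c, hc⟩ := eq_C_of_shift f fun i => hf.2 i (by simp)
        exact ⟨c, by rw [hc]; rfl⟩
      exact Submodule.finiteDimensional_of_le hle
    | insert j s hj ih =>
      by_contra hinf
      have hstable : ∀ (a' : σ → k), ∀ f ∈ E (insert j s), shift a' f ∈ E (insert j s) := by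
        intro a' f hf
        rw [hmem] at hf ⊢
        refine ⟨?_, fun l hl => ?_⟩
        · rw [mem_filtAll]
          intro i
          exact (mem_filtAll.1 hf.1 i).shift a'
        · rw [shift_comm, hf.2 l hl]
      have hfin : FiniteDimensional k (E (insert j s) ⊓
          LinearMap.ker ((shift (Pi.single j (1 : k))).toLinearMap - LinearMap.id) :
          Submodule k (MvPolynomial σ k)) := by
        have hle : E (insert j s) ⊓
            LinearMap.ker ((shift (Pi.single j (1 : k))).toLinearMap - LinearMap.id) ≤ E s := by
          rintro f ⟨hf1, hf2⟩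
          rw [SetLike.mem_coe, hmem] at hf1
          rw [SetLike.mem_coe, LinearMap.mem_ker, LinearMap.sub_apply,
            AlgHom.toLinearMap_apply, LinearMap.id_apply, sub_eq_zero] at hf2
          rw [hmem]
          refine ⟨hf1.1, fun l hl => ?_⟩
          by_cases hlj : l = j
          · rw [hlj]
            exact hf2
          · exact hf1.2 l (by simp [hlj, hl])
        exact Submodule.finiteDimensional_of_le hle
      obtain ⟨b, Φ, γ, hb, hγ, h0, hχ, ha₀, hΦ⟩ :=
        exists_phi (Pi.single j (1 : k)) (E (insert j s)) hstable hfin hinf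
      obtain ⟨c, hc0, hc⟩ := exists_linear (Pi.single j (1 : k)) hb hγ h0 hχ ha₀
      apply hc0
      apply h
      intro i
      apply hc
      refine ⟨b * (-(a i)), fun m => ?_⟩
      have hle : E (insert j s) ≤ (v i).filt (-(a i)) := (hfilt _).trans (iInf_le _ i)
      exact PVal.mem_filt.1 (kn08_pow_le (v i) (-(a i)) _ hle b (hΦ m))
  have huniv : filtAll v a ≤ E Finset.univ := by
    intro f hf
    rw [hmem]
    exact ⟨hf, fun j hj => absurd (Finset.mem_univ j) hj⟩
  haveI := key Finset.univ
  exact Submodule.finiteDimensional_of_le huniv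

end Pool.Agent.Helper93.KN
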