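import Pool.Agent.Helper92.Weak.Defs

set_option autoImplicit false

/-!
# Equivariant compactifications of commutative linear algebraic groups
-/

namespace Pool.Agent.Helper93.KN

open Pool.Agent.Helper92.Weak

/-- The normal projective variety `X` has an action of the commutative linear algebraic group
`𝔾_a^r × 𝔾_m^s` with an open orbit: the function field of `X` is `L = k(x₁, ..., x_r, y₁, ..., y_s)`,
and the automorphisms `x_i ↦ x_i + a_i`, `y_j ↦ b_j y_j` of `L` act on `X`. -/
structure IsGroupCompactification {k L : Type*} [Field k] [Field L] [Algebra k L] {r s : ℕ}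
    (x : Fin r → L) (y : Fin s → L) (X : ProjVar k L) : Prop where
  indep : AlgebraicIndependent k (Sum.elim x y)
  gen : IntermediateField.adjoin k (Set.range (Sum.elim x y)) = ⊤
  stable : ∀ (σ : L ≃ₐ[k] L) (a : Fin r → k) (b : Fin s → k),
    (∀ i, σ (x i) = x i + algebraMap k L (a i)) → (∀ j, σ (y j) = b j • y j) →
    ∀ R ∈ X.localRings, ∃ R' ∈ X.localRings, ∀ z, z ∈ R' ↔ σ z ∈ R

end Pool.Agent.Helper93.KN
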