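import Pool.Agent.Helper93.KN.Final1
import Pool.Agent.Helper92.KN.Geom
import Pool.Agent.Helper47.PQ.R3
import Pool.Agent.Helper47.PQ.R4

set_option autoImplicit false

/-! Kodaira dimension and numerical dimension agree for all divisors on compactifications of
`𝔾_a^r × 𝔾_m^s` and on their finite images. -/

namespace Pool.Agent.Helper93.KN

open Pool.Agent.Helper92.Weak Pool.Agent.Helper47.PQ

/-- The two dimensions of an arbitrary divisor on a compactification of a commutative group. -/
theorem kod_nu {k L : Type*} [Field k] [IsAlgClosed k] [CharZero k] [Field L] [Algebra k L]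
    {r s : ℕ} {x : Fin r → L} {y : Fin s → L} {X : ProjVar k L}
    (h : IsGroupCompactification x y X) (D : X.Div) :
    (X.kod D = ⊥ ∧ X.nu D = ⊥) ∨ ∃ e : ℕ, X.kod D = e ∧ X.nu D = e := by
  obtain ⟨H, hH, B, hB⟩ := Pool.Agent.Helper92.KN.geom h
  obtain ⟨N, M, hN, -, h1, h2⟩ := hB D
  exact kod_nu_of_model X D B hN M h1 h2

theorem kod_eq_nu {k L : Type*} [Field k] [IsAlgClosed k] [CharZero k] [Field L] [Algebra k L]
    {r s : ℕ} {x : Fin r → L} {y : Fin s → L} {X : ProjVar k L}
    (h : IsGroupCompactification x y X) (D : X.Div) : X.kod D = X.nu D := by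
  rcases kod_nu h D with h1 | ⟨e, h1, h2⟩
  · rw [h1.1, h1.2]
  · rw [h1, h2]

/-- The same for finite images. -/
theorem kod_eq_nu_cover {k L E : Type*} [Field k] [IsAlgClosed k] [CharZero k] [Field L] [Field E]
    [Algebra k L] [Algebra k E] [Algebra L E] [IsScalarTower k L E] {r s : ℕ} {x : Fin r → E}
    {y : Fin s → E} {X' : ProjVar k E} (h : IsGroupCompactification x y X') {X : ProjVar k L}
    (hc : IsFiniteCover X' X) (D : X.Div) : X.kod D = X.nu D := by
  obtain ⟨D', hD'⟩ := hc.exists_pull D
  rw [← hc.kod_pull hD', ← hc.nu_pull hD']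
  exact kod_eq_nu h D'

end Pool.Agent.Helper93.KN
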