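import Pool.Agent.Helper93.KN.Split

set_option autoImplicit false

/-! Module KN-10. Growth of `filtAll`, without adapted coordinates.

PROOF. Let `W = linForms v`, `ω = finrank k W`. Choose a basis `P : Basis (Fin ω ⊕ Fin t) k (σ → k)`
whose first `ω` vectors form a basis of `W` (`Submodule.exists_isCompl`, `Submodule.prodEquivOfIsCompl`;
or extend a linearly independent family). Let
`θ : MvPolynomial (Fin ω ⊕ Fin t) k →ₐ MvPolynomial σ k`, `X κ ↦ ∑ C (P κ j) X j`. It is an isomorphism
(the inverse comes from the inverse matrix), it does not raise the total degree, nor does its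
inverse, and `θ (shift a f) = shift a' (θ f)` for a suitable `a'` (solve the linear system:
`∑_j P κ j * a' j = a κ`, `P` invertible). So `v' i f = v i (θ f)` is a `PVal` and `split_growth` applies:
`hα` because the first vectors are in `W`; `hβ`: `∑ c_j P (inr j)` lies in `W` and in the span of the
`P (inr j)`, so `c = 0`. `θ` maps `filtAll v' a ⊓ restrictTotalDegree T` onto
`filtAll v a ⊓ restrictTotalDegree T`.
`growth_lower`: `w j = ∑ C (P (inl j) l) X l = θ (X (inl j))`: algebraically independent because `θ` is
injective. -/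

namespace Pool.Agent.Helper93.KN

open MvPolynomial Pool.Agent.Helper92.Weak

/-- The linear forms on which all valuations are nonnegative. -/
noncomputable def linForms {k σ ι : Type*} [Field k] [Fintype σ] (v : ι → PVal k σ) :
    Submodule k (σ → k) where
  carrier := {c | ∀ i, (v i).Ge 0 (∑ j, C (c j) * X j)}
  zero_mem' i := by simp
  add_mem' {c c'} h h' i := by
    have h1 := (h i).add (h' i)
    rw [← Finset.sum_add_distrib] at h1
    simpa [add_mul] using h1
  smul_mem' t c h i := by
    have h1 := (h i).C_mul t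
    rw [Finset.mul_sum] at h1
    simpa [mul_assoc] using h1

section Aux

variable {k σ τ ι : Type*} [Field k] [Fintype σ]

/-- The linear form with coefficients `c`. -/
private noncomputable def lf (c : σ → k) : MvPolynomial σ k := ∑ j, C (c j) * X j

private lemma lf_sum {α : Type*} (s : Finset α) (c : α → k) (p : α → σ → k) :
    ∑ a ∈ s, C (c a) * lf (p a) = lf (∑ a ∈ s, c a • p a) := by
  unfold lf
  simp only [Finset.mul_sum]
  rw [Finset.sum_comm]
  refine Finset.sum_congr rfl fun j _ => ?_
  rw [Finset.sum_apply, map_sum, Finset.sum_mul]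
  refine Finset.sum_congr rfl fun a _ => ?_
  rw [Pi.smul_apply, smul_eq_mul, map_mul]
  ring

private lemma lf_single [DecidableEq σ] (j : σ) : lf (Pi.single j (1 : k)) = X j := by
  unfold lf
  rw [Finset.sum_eq_single j]
  · simp
  · intro b _ hb
    simp [Pi.single_eq_of_ne hb]
  · simp

private lemma lf_deg (c : σ → k) : (lf c).totalDegree ≤ 1 := by
  unfold lf
  refine totalDegree_finsetSum_le fun j _ => ?_
  refine (totalDegree_mul _ _).trans ?_
  rw [totalDegree_C, zero_add]
  exact (totalDegree_X j).le

omit [Fintype σ] in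
private lemma deg_aeval_le {g : τ → MvPolynomial σ k} (hg : ∀ i, (g i).totalDegree ≤ 1)
    (f : MvPolynomial τ k) : (aeval g f).totalDegree ≤ f.totalDegree := by
  classical
  rw [aeval_def, eval₂_eq]
  refine totalDegree_finsetSum_le fun s hs => ?_
  refine (totalDegree_mul _ _).trans ?_
  rw [algebraMap_eq, totalDegree_C, zero_add]
  refine (totalDegree_finsetProd _ _).trans ?_
  refine le_trans ?_ (le_totalDegree hs)
  rw [Finsupp.sum]
  refine Finset.sum_le_sum fun i _ => ?_
  refine (totalDegree_pow _ _).trans ?_
  exact (Nat.mul_le_mul_left _ (hg i)).trans (by rw [mul_one])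

private noncomputable def th (P : τ → σ → k) : MvPolynomial τ k →ₐ[k] MvPolynomial σ k :=
  aeval fun i => lf (P i)

private lemma th_X (P : τ → σ → k) (i : τ) : th P (X i) = lf (P i) := by
  simp [th]

private lemma th_C (P : τ → σ → k) (c : k) : th P (C c) = C c := by
  simp [th]

private lemma th_lf [Fintype τ] (P : τ → σ → k) (c : τ → k) :
    th P (lf c) = lf (∑ i, c i • P i) := by
  rw [← lf_sum]
  conv_lhs => unfold lf
  rw [map_sum]
  refine Finset.sum_congr rfl fun i _ => ?_
  rw [map_mul, th_X, th_C]

private lemma th_comp [Fintype τ] (P : τ → σ → k) (Q : σ → τ → k) (f : MvPolynomial σ k)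
    (h : ∀ j, lf (∑ i, Q j i • P i) = X j) : th P (th Q f) = f := by
  have h1 : (th P).comp (th Q) = AlgHom.id k (MvPolynomial σ k) := by
    apply algHom_ext
    intro j
    rw [AlgHom.comp_apply, th_X, th_lf, h]
    rfl
  exact DFunLike.congr_fun h1 f

private lemma th_shift (P : τ → σ → k) (a : τ → k) (a' : σ → k)
    (h : ∀ i, ∑ j, P i j * a' j = a i) (f : MvPolynomial τ k) :
    th P (shift a f) = shift a' (th P f) := by
  have h1 : (th P).comp (shift a) = (shift a').comp (th P) := by
    apply algHom_ext
    intro i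
    rw [AlgHom.comp_apply, AlgHom.comp_apply, shift_X, map_add, th_X, th_C]
    unfold lf
    rw [← h i, map_sum C, map_sum (shift a'), ← Finset.sum_add_distrib]
    refine Finset.sum_congr rfl fun j _ => ?_
    rw [map_mul (shift a'), shift_C, shift_X, map_mul]
    ring
  exact DFunLike.congr_fun h1 f

/-- A valuation in new coordinates. -/
private noncomputable def pull (v : PVal k σ) (P : τ → σ → k) (hinj : Function.Injective (th P))
    (hsh : ∀ a : τ → k, ∃ a' : σ → k, ∀ i, ∑ j, P i j * a' j = a i) : PVal k τ where
  toFun f := v (th P f)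
  map_zero' := by simp
  map_mul' f g hf hg := by
    rw [map_mul]
    refine v.map_mul ?_ ?_
    · rw [← map_zero (th P)]
      exact fun h => hf (hinj h)
    · rw [← map_zero (th P)]
      exact fun h => hg (hinj h)
  map_add' f g hf hg hfg := by
    rw [map_add]
    refine v.map_add' _ _ ?_ ?_ ?_
    · rw [← map_zero (th P)]
      exact fun h => hf (hinj h)
    · rw [← map_zero (th P)]
      exact fun h => hg (hinj h)
    · rw [← map_add, ← map_zero (th P)]
      exact fun h => hfg (hinj h)
  map_C' c := by
    rw [th_C]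
    exact v.map_C c
  map_shift' a f := by
    obtain ⟨a', ha'⟩ := hsh a
    rw [th_shift P a a' ha']
    exact v.map_shift a' _

private lemma pull_ge (v : PVal k σ) (P : τ → σ → k) (hinj : Function.Injective (th P))
    (hsh : ∀ a : τ → k, ∃ a' : σ → k, ∀ i, ∑ j, P i j * a' j = a i) (n : ℚ)
    (f : MvPolynomial τ k) : (pull v P hinj hsh).Ge n f ↔ v.Ge n (th P f) := by
  unfold PVal.Ge
  have h1 : th P f = 0 ↔ f = 0 := by
    constructor
    · intro h
      apply hinj
      rw [h, map_zero]
    · rintro rfl
      exact map_zero _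
  rw [h1]
  rfl

/-- Adapted coordinates. -/
private lemma adapted (v : ι → PVal k σ) : ∃ (t : ℕ)
    (P : Module.Basis (Fin (Module.finrank k (linForms v)) ⊕ Fin t) k (σ → k)),
    (∀ j, P (Sum.inl j) ∈ linForms v) ∧
    ∀ c : Fin t → k, ∑ j, c j • P (Sum.inr j) ∈ linForms v → c = 0 := by
  obtain ⟨W', hW'⟩ := Submodule.exists_isCompl (linForms v)
  let b := Module.finBasis k (linForms v)
  let b' := Module.finBasis k W'
  let E := Submodule.prodEquivOfIsCompl (linForms v) W' hW'
  refine ⟨Module.finrank k W', (b.prod b').map E, ?_, ?_⟩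
  · intro j
    rw [Module.Basis.map_apply, Module.Basis.prod_apply]
    simp [E]
  · intro c hc
    have h1 : ∀ j, ((b.prod b').map E) (Sum.inr j) = (b' j : σ → k) := by
      intro j
      rw [Module.Basis.map_apply, Module.Basis.prod_apply]
      simp [E]
    have h2 : (∑ j, c j • ((b.prod b').map E) (Sum.inr j)) ∈ W' := by
      refine Submodule.sum_mem _ fun j _ => Submodule.smul_mem _ _ ?_
      rw [h1]
      exact (b' j).2
    have h3 : (∑ j, c j • ((b.prod b').map E) (Sum.inr j)) = 0 := by
      have h4 := hW'.disjoint.le_bot (Submodule.mem_inf.2 ⟨hc, h2⟩)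
      simpa using h4
    have h5 : ∑ j, c j • b' j = 0 := by
      apply Subtype.ext
      refine Eq.trans ?_ h3
      simp only [h1]
      push_cast
      rfl
    funext j
    exact (Fintype.linearIndependent_iff.1 b'.linearIndependent) c h5 j

end Aux

private lemma package {k σ ι : Type*} [Field k] [Fintype σ] (v : ι → PVal k σ) :
    ∃ (t : ℕ) (P : Fin (Module.finrank k (linForms v)) ⊕ Fin t → σ → k)
      (Q : σ → Fin (Module.finrank k (linForms v)) ⊕ Fin t → k),
      (∀ f, th P (th Q f) = f) ∧ (∀ f, th Q (th P f) = f) ∧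
      (∀ a : Fin (Module.finrank k (linForms v)) ⊕ Fin t → k,
        ∃ a' : σ → k, ∀ i, ∑ j, P i j * a' j = a i) ∧
      (∀ j, P (Sum.inl j) ∈ linForms v) ∧
      ∀ c : Fin t → k, ∑ j, c j • P (Sum.inr j) ∈ linForms v → c = 0 := by
  classical
  obtain ⟨t, P, h1, h2⟩ := adapted v
  refine ⟨t, P, fun j => P.repr (Pi.single j 1), ?_, ?_, ?_, h1, h2⟩
  · intro f
    apply th_comp
    intro j
    rw [P.sum_repr, lf_single]
  · intro f
    apply th_comp
    intro i
    have h3 : ∑ j, P i j • (fun l => P.repr (Pi.single j (1 : k)) l) =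
        Pi.single i (1 : k) := by
      have h4 : P.repr (P i) = ∑ j, P i j • P.repr (Pi.single j (1 : k)) := by
        conv_lhs => rw [pi_eq_sum_univ' (P i)]
        rw [map_sum]
        refine Finset.sum_congr rfl fun j _ => ?_
        rw [map_smul]
      rw [P.repr_self] at h4
      funext l
      rw [Finset.sum_apply]
      have h5 := DFunLike.congr_fun h4 l
      rw [Finsupp.finsetSum_apply] at h5
      simp only [Finsupp.smul_apply] at h5
      simp only [Pi.smul_apply]
      rw [← h5, Finsupp.single_apply, Pi.single_apply]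
      simp only [eq_comm]
    exact (congrArg lf h3).trans (lf_single i)
  · intro a
    refine ⟨fun j => P.constr k a (Pi.single j 1), fun i => ?_⟩
    have h4 : P.constr k a (P i) = ∑ j, P i j * P.constr k a (Pi.single j (1 : k)) := by
      conv_lhs => rw [pi_eq_sum_univ' (P i)]
      rw [map_sum]
      refine Finset.sum_congr rfl fun j _ => ?_
      rw [map_smul, smul_eq_mul]
    rw [← h4, P.constr_basis]

theorem growth_upper {k σ ι : Type*} [Field k] [CharZero k] [Fintype σ] (v : ι → PVal k σ)
    (a : ι → ℚ) : ∃ C : ℕ, ∀ T : ℕ, sdim (filtAll v a ⊓ restrictTotalDegree σ k T) ≤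
      (C : ℕ∞) * ((T : ℕ∞) + 1) ^ Module.finrank k (linForms v) := by
  obtain ⟨t, P, Q, hPQ, hQP, hsh, hin, hout⟩ := package v
  have hinj : Function.Injective (th P) := fun f g h => by
    rw [← hQP f, h, hQP g]
  obtain ⟨C, hC⟩ := split_growth (fun i => pull (v i) P hinj hsh) (fun i j => by
      rw [pull_ge, th_X]
      exact hin j i) (fun c hc => by
      apply hout
      intro i
      have h1 := hc i
      rw [pull_ge, map_sum] at h1
      have h2 : ∑ j, th P (MvPolynomial.C (c j) * X (Sum.inr j)) = lf (∑ j, c j • P (Sum.inr j)) := by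
        rw [← lf_sum]
        refine Finset.sum_congr rfl fun j _ => ?_
        rw [map_mul, th_C, th_X]
      rw [h2] at h1
      exact h1) a
  refine ⟨C, fun T => ?_⟩
  have h3 := hC T
  rw [Fintype.card_fin] at h3
  refine le_trans ?_ h3
  let φ : (filtAll v a ⊓ restrictTotalDegree σ k T : Submodule k (MvPolynomial σ k)) →ₗ[k]
      (filtAll (fun i => pull (v i) P hinj hsh) a ⊓ restrictTotalDegree _ k T :
        Submodule k (MvPolynomial _ k)) :=
    { toFun := fun f => ⟨th Q f.1, by
        obtain ⟨f, hf⟩ := f
        rw [Submodule.mem_inf, mem_filtAll, mem_restrictTotalDegree] at hf ⊢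
        refine ⟨fun i => ?_, ?_⟩
        · rw [pull_ge, hPQ]
          exact hf.1 i
        · exact (deg_aeval_le (fun i => lf_deg _) f).trans hf.2⟩
      map_add' := fun f g => by
        apply Subtype.ext
        simp
      map_smul' := fun c f => by
        apply Subtype.ext
        simp }
  refine sdim_le_of_injective φ ?_
  intro f g h
  apply Subtype.ext
  have h4 : th Q f.1 = th Q g.1 := congrArg Subtype.val h
  rw [← hPQ f.1, h4, hPQ g.1]

theorem growth_lower {k σ ι : Type*} [Field k] [CharZero k] [Fintype σ] (v : ι → PVal k σ) :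
    ∃ w : Fin (Module.finrank k (linForms v)) → MvPolynomial σ k, AlgebraicIndependent k w ∧
      ∀ i j, (v i).Ge 0 (w j) := by
  obtain ⟨t, P, Q, hPQ, hQP, hsh, hin, hout⟩ := package v
  have hinj : Function.Injective (th P) := fun f g h => by
    rw [← hQP f, h, hQP g]
  refine ⟨fun j => th P (X (Sum.inl j)), ?_, ?_⟩
  · have h1 := ((algebraicIndependent_X (Fin (Module.finrank k (linForms v)) ⊕ Fin t) k).comp
      Sum.inl Sum.inl_injective).map' hinj
    exact h1
  · intro i j
    change (v i).Ge 0 (th P (X (Sum.inl j)))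
    rw [th_X]
    exact hin j i

end Pool.Agent.Helper93.KN
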