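import Pool.Agent.Helper93.KN.Geo
import Pool.Agent.Helper93.KN.Linear

set_option autoImplicit false

/-! Module KN-13. The lower bound.

PROOF. `w j` (`j < ω`) from `growth_lower` for the family `fun i : J => B.v i.1`. Let `K ≥ 0` be such that
`B.v i (w j) ≥ -K` and `|⟨w_i, b (inl j)⟩| ≤ K` for all `i ∈ H`, all `j` (finitely many; `w j ≠ 0`). Let `δ > 0`
be such that `⟨w_i, u₀⟩ + M_i ≥ δ` for all `i ∉ J` (`H` finite). Choose `a ≥ 1` divisible by `T` with
`a δ ≥ (ρ + ω) K`. For `n ≥ 1`, `c : Fin ρ → {0, ..., n - 1}`, `α : Fin ω → {0, ..., n - 1}` let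
`u = a n u₀ + ∑ c_j b (inl j)` (integral) and `f_{c,α} = single u (∏ (w j) ^ (α j))`. Then
`f_{c,α} ∈ B.sec ((a n) M)`: for `i ∈ J`, `⟨w_i, u⟩ + a n M_i = 0` (`Geo.pair_zero`) and
`B.v i (∏ w j ^ α j) ≥ 0`; for `i ∉ J`,
`⟨w_i, u⟩ + a n M_i ≥ a n δ - n ρ K` and `B.v i (∏ ..) ≥ -n ω K`. The `f_{c,α}` are linearly independent: different
`c` give different `u` (`b` is a basis), and for fixed `u` the monomials in the algebraically independent
`w j` are linearly independent (`AlgebraicIndependent`: the monomials of `MvPolynomial (Fin ω) k` are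
linearly independent and `aeval w` is injective). So `n ^ ρ * n ^ ω ≤ sdim`. Helpful:
`Pool.Agent.Helper92.Weak.card_mul_le_sdim`, `LinearIndependent.cardinal_le_rank`,
`LinearIndependent.comp`, `linearIndependent_fin...`; `sdim W = Cardinal.toENat (Module.rank k W)`. -/

namespace Pool.Agent.Helper93.KN

open Module MvPolynomial Pool.Agent.Helper92.Weak

private lemma card_le_sdim {k V ι : Type*} [Field k] [AddCommGroup V] [Module k V] [Fintype ι]
    (W : Submodule k V) (f : ι → V) (hf : LinearIndependent k f) (hm : ∀ i, f i ∈ W) :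
    (Fintype.card ι : ℕ∞) ≤ sdim W := by
  have h1 : LinearIndependent k fun i => (⟨f i, hm i⟩ : W) :=
    LinearIndependent.of_comp W.subtype hf
  have h2 := OrderHomClass.mono Cardinal.toENat h1.cardinal_lift_le_rank
  rw [Cardinal.toENat_lift, Cardinal.toENat_lift, Cardinal.mk_fintype,
    Cardinal.toENat_nat] at h2
  exact h2

theorem Geo.lower {k : Type*} [Field k] [CharZero k] {r s : ℕ} {H : Type*} [Fintype H]
    {B : BData k r s H} {M : H → ℚ} (𝒢 : Geo B M) :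
    ∃ a : ℕ, 1 ≤ a ∧ ∀ n : ℕ, 1 ≤ n →
      (n : ℕ∞) ^ (𝒢.ρ + finrank k (linForms fun i : 𝒢.J => B.v i.1)) ≤
        sdim (B.sec (((a * n : ℕ) : ℚ) • M)) := by
  classical
  set ω := finrank k (linForms fun i : 𝒢.J => B.v i.1) with hω
  obtain ⟨w, hw, hwge⟩ := growth_lower (fun i : 𝒢.J => B.v i.1)
  -- constants
  set x : H → ℚ := fun i => pairL (B.w i) 𝒢.u₀ + M i with hx
  set K : ℚ := ∑ i, (∑ j, |(B.v i (w j) : ℚ)| + ∑ j, |pairL (B.w i) (𝒢.b (Sum.inl j))|) with hK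
  have hK0 : 0 ≤ K := Finset.sum_nonneg fun i _ => add_nonneg
    (Finset.sum_nonneg fun _ _ => abs_nonneg _) (Finset.sum_nonneg fun _ _ => abs_nonneg _)
  have hKi : ∀ i, ∑ j, |(B.v i (w j) : ℚ)| + ∑ j, |pairL (B.w i) (𝒢.b (Sum.inl j))| ≤ K := by
    intro i
    refine Finset.single_le_sum (f := fun i => ∑ j, |(B.v i (w j) : ℚ)| +
      ∑ j, |pairL (B.w i) (𝒢.b (Sum.inl j))|) ?_ (Finset.mem_univ i)
    intro i _
    exact add_nonneg (Finset.sum_nonneg fun _ _ => abs_nonneg _)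
      (Finset.sum_nonneg fun _ _ => abs_nonneg _)
  have hK1 : ∀ i j, -K ≤ (B.v i (w j) : ℚ) := by
    intro i j
    have h1 : |(B.v i (w j) : ℚ)| ≤ ∑ j, |(B.v i (w j) : ℚ)| :=
      Finset.single_le_sum (f := fun j => |(B.v i (w j) : ℚ)|) (fun _ _ => abs_nonneg _)
        (Finset.mem_univ j)
    have h2 : 0 ≤ ∑ j, |pairL (B.w i) (𝒢.b (Sum.inl j))| :=
      Finset.sum_nonneg fun _ _ => abs_nonneg _
    have h3 := hKi i
    have h4 := neg_abs_le (B.v i (w j) : ℚ)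
    linarith
  have hK2 : ∀ i j, -K ≤ pairL (B.w i) (𝒢.b (Sum.inl j)) := by
    intro i j
    have h1 : |pairL (B.w i) (𝒢.b (Sum.inl j))| ≤ ∑ j, |pairL (B.w i) (𝒢.b (Sum.inl j))| :=
      Finset.single_le_sum (f := fun j => |pairL (B.w i) (𝒢.b (Sum.inl j))|)
        (fun _ _ => abs_nonneg _) (Finset.mem_univ j)
    have h2 : 0 ≤ ∑ j, |(B.v i (w j) : ℚ)| := Finset.sum_nonneg fun _ _ => abs_nonneg _
    have h3 := hKi i
    have h4 := neg_abs_le (pairL (B.w i) (𝒢.b (Sum.inl j)))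
    linarith
  have hN : ∀ i, ∃ N : ℕ, x i ≠ 0 → ((𝒢.ρ : ℚ) + ω) * K ≤ N * x i := by
    intro i
    obtain ⟨N, hN⟩ := exists_nat_ge ((((𝒢.ρ : ℚ) + ω) * K) / x i)
    refine ⟨N, fun hxi => ?_⟩
    have h1 : 0 < x i := lt_of_le_of_ne (𝒢.h0 i) (Ne.symm hxi)
    rwa [div_le_iff₀ h1] at hN
  choose N hN using hN
  set q : ℕ := 1 + ∑ i, N i with hq
  obtain ⟨z₀, hz₀⟩ := 𝒢.hT
  choose zb hzb using fun j => 𝒢.bint (Sum.inl j)
  have hT1 : 1 ≤ 𝒢.T := 𝒢.T_pos
  have hNq : ∀ i, N i ≤ 𝒢.T * q := by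
    intro i
    have h1 : N i ≤ ∑ i, N i := Finset.single_le_sum (fun _ _ => Nat.zero_le _) (Finset.mem_univ i)
    calc N i ≤ q := by omega
      _ = 1 * q := (one_mul q).symm
      _ ≤ 𝒢.T * q := Nat.mul_le_mul_right _ hT1
  have hq1 : 1 ≤ q := by omega
  refine ⟨𝒢.T * q, Nat.mul_pos 𝒢.T_pos hq1, fun n hn => ?_⟩
  have hn1 : (1 : ℚ) ≤ n := by exact_mod_cast hn
  -- the exponents
  let zc : (Fin 𝒢.ρ → Fin n) → Fin s → ℤ := fun c l =>
    ((q * n : ℕ) : ℤ) * z₀ l + ∑ j, (((c j : ℕ) : ℤ)) * zb j l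
  have hzc : ∀ c : Fin 𝒢.ρ → Fin n, (fun l => (zc c l : ℚ)) =
      ((𝒢.T * q * n : ℕ) : ℚ) • 𝒢.u₀ + ∑ j, ((c j : ℕ) : ℚ) • 𝒢.b (Sum.inl j) := by
    intro c
    funext l
    have h1 : (𝒢.T : ℚ) * 𝒢.u₀ l = z₀ l := by
      have := congrFun hz₀ l
      simpa using this
    have h2 : ∀ j, 𝒢.b (Sum.inl j) l = (zb j l : ℚ) := fun j => congrFun (hzb j) l
    rw [Pi.add_apply, Pi.smul_apply, smul_eq_mul, Finset.sum_apply]
    simp only [Pi.smul_apply, smul_eq_mul, h2, zc]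
    push_cast
    rw [← h1]
    ring
  have hzinj : Function.Injective zc := by
    intro c c' h
    have h1 : (fun l => (zc c l : ℚ)) = fun l => (zc c' l : ℚ) := by rw [h]
    rw [hzc, hzc] at h1
    have h2 := add_left_cancel h1
    have h3 : ∑ j, (((c j : ℕ) : ℚ) - ((c' j : ℕ) : ℚ)) • 𝒢.b (Sum.inl j) = 0 := by
      simp only [sub_smul]
      rw [Finset.sum_sub_distrib, h2, sub_self]
    have h4 := Fintype.linearIndependent_iff.1
      (𝒢.b.linearIndependent.comp Sum.inl Sum.inl_injective) _ h3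
    funext j
    have h5 := sub_eq_zero.1 (h4 j)
    apply Fin.ext
    exact_mod_cast h5
  -- the monomials
  let mo : (Fin ω → Fin n) → MvPolynomial (Fin r) k := fun α => ∏ j, w j ^ (α j : ℕ)
  have hmo : LinearIndependent k mo := by
    have h1 : mo = (aeval w).toLinearMap ∘ ((fun m : Fin ω →₀ ℕ => (monomial m (1 : k))) ∘
        fun α : Fin ω → Fin n => (Finsupp.equivFunOnFinite.symm fun j => (α j : ℕ))) := by
      funext α
      simp only [mo, Function.comp_apply, AlgHom.toLinearMap_apply]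
      rw [aeval_monomial, map_one, one_mul, Finsupp.prod_fintype _ _ (fun _ => pow_zero _)]
      rfl
    rw [h1]
    have h2 : LinearIndependent k (fun m : Fin ω →₀ ℕ => (monomial m (1 : k))) := by
      have := (basisMonomials (Fin ω) k).linearIndependent
      rwa [coe_basisMonomials] at this
    have h3 : Function.Injective fun α : Fin ω → Fin n =>
        (Finsupp.equivFunOnFinite.symm fun j => (α j : ℕ)) := by
      intro α α' h
      have h4 := Finsupp.equivFunOnFinite.symm.injective h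
      funext j
      exact Fin.ext (congrFun h4 j)
    exact (h2.comp _ h3).map' _ (LinearMap.ker_eq_bot.2 hw)
  have hmem : ∀ p : (Fin 𝒢.ρ → Fin n) × (Fin ω → Fin n),
      Finsupp.single (zc p.1) (mo p.2) ∈ B.sec (((𝒢.T * q * n : ℕ) : ℚ) • M) := by
    rintro ⟨c, α⟩
    rw [BData.mem_sec]
    intro u i
    by_cases hu : zc c = u
    swap
    · rw [Finsupp.single_eq_of_ne' hu]
      exact PVal.Ge.zero
    subst hu
    rw [Finsupp.single_eq_same, hzc, map_add, map_smul, smul_eq_mul, map_sum, Pi.smul_apply,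
      smul_eq_mul]
    simp only [map_smul, smul_eq_mul]
    by_cases hi : pairL (B.w i) 𝒢.u₀ + M i = 0
    · have h1 : ∑ j, ((c j : ℕ) : ℚ) * pairL (B.w i) (𝒢.b (Sum.inl j)) = 0 :=
        Finset.sum_eq_zero fun j _ => by rw [𝒢.pair_zero ⟨i, hi⟩ j, mul_zero]
      have h2 : (B.v i).Ge (∑ j : Fin ω, (((α j : ℕ) : ℚ) * 0)) (mo α) :=
        PVal.Ge.prod fun j _ => (hwge ⟨i, hi⟩ j).pow (α j)
      refine h2.mono ?_
      have h3 : ((𝒢.T * q * n : ℕ) : ℚ) * (pairL (B.w i) 𝒢.u₀ + M i) = 0 := by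
        rw [hi, mul_zero]
      simp only [mul_zero, Finset.sum_const_zero]
      rw [h1]
      linarith
    · have h2 : (B.v i).Ge (∑ j : Fin ω, (((α j : ℕ) : ℚ) * (-K))) (mo α) :=
        PVal.Ge.prod fun j _ => ((PVal.ge_self (w j)).mono (hK1 i j)).pow (α j)
      refine h2.mono ?_
      have h3 : -((ω : ℚ) * n * K) ≤ ∑ j : Fin ω, (((α j : ℕ) : ℚ) * (-K)) := by
        have h4 : ∀ j ∈ (Finset.univ : Finset (Fin ω)),
            (n : ℚ) * (-K) ≤ ((α j : ℕ) : ℚ) * (-K) := by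
          intro j _
          have h5 : ((α j : ℕ) : ℚ) ≤ n := by exact_mod_cast (α j).2.le
          nlinarith
        have h6 := Finset.card_nsmul_le_sum _ _ _ h4
        rw [Finset.card_univ, Fintype.card_fin, nsmul_eq_mul] at h6
        linarith
      have h7 : -((𝒢.ρ : ℚ) * n * K) ≤ ∑ j, ((c j : ℕ) : ℚ) * pairL (B.w i) (𝒢.b (Sum.inl j)) := by
        have h4 : ∀ j ∈ (Finset.univ : Finset (Fin 𝒢.ρ)),
            (n : ℚ) * (-K) ≤ ((c j : ℕ) : ℚ) * pairL (B.w i) (𝒢.b (Sum.inl j)) := by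
          intro j _
          have h5 : ((c j : ℕ) : ℚ) ≤ n := by exact_mod_cast (c j).2.le
          have h8 : (0 : ℚ) ≤ ((c j : ℕ) : ℚ) := Nat.cast_nonneg _
          have h9 := hK2 i j
          nlinarith
        have h6 := Finset.card_nsmul_le_sum _ _ _ h4
        rw [Finset.card_univ, Fintype.card_fin, nsmul_eq_mul] at h6
        linarith
      have h10 : ((𝒢.ρ : ℚ) + ω) * K ≤ ((𝒢.T * q : ℕ) : ℚ) * x i := by
        refine (hN i hi).trans (mul_le_mul_of_nonneg_right ?_ (𝒢.h0 i))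
        exact_mod_cast hNq i
      have h11 : ((𝒢.ρ : ℚ) + ω) * K * n ≤ ((𝒢.T * q : ℕ) : ℚ) * x i * n :=
        mul_le_mul_of_nonneg_right h10 (by linarith)
      have h12 : ((𝒢.T * q * n : ℕ) : ℚ) = ((𝒢.T * q : ℕ) : ℚ) * n := by push_cast; ring
      rw [h12]
      have h13 : x i = pairL (B.w i) 𝒢.u₀ + M i := rfl
      rw [h13] at h11
      nlinarith [h3, h7, h11]
  have h1 : LinearIndependent k (fun ix : Σ _ : Fin s → ℤ, (Fin ω → Fin n) =>
      Finsupp.single ix.1 (mo ix.2)) :=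
    Finsupp.linearIndependent_single (fun _ => mo) fun _ => hmo
  have h2 : Function.Injective fun p : (Fin 𝒢.ρ → Fin n) × (Fin ω → Fin n) =>
      (⟨zc p.1, p.2⟩ : Σ _ : Fin s → ℤ, (Fin ω → Fin n)) := by
    rintro ⟨c, α⟩ ⟨c', α'⟩ h
    simp only [Sigma.mk.injEq, heq_eq_eq] at h
    rw [hzinj h.1, h.2]
  have h3 := card_le_sdim _ _ (h1.comp _ h2) hmem
  refine le_trans (le_of_eq ?_) h3
  rw [Fintype.card_prod, Fintype.card_fun, Fintype.card_fun]
  simp only [Fintype.card_fin]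
  push_cast
  rw [pow_add]

end Pool.Agent.Helper93.KN
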