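import Pool.Agent.Helper93.KN.Upper
import Pool.Agent.Helper93.KN.Lower
import Pool.Agent.Helper92.Weak.Gen

set_option autoImplicit false

/-! Module KN-14. From the combinatorial model to `κ = ν`. -/

namespace Pool.Agent.Helper93.KN

open Module Filter Pool.Agent.Helper92.Weak

lemma logGrowth_one : logGrowth (fun _ => 1) = 0 := by
  unfold logGrowth
  simp

/-- A two sided polynomial bound determines the Kodaira dimension. -/
lemma kodDim_of_bounds {h : ℕ → ℕ∞} {e C a : ℕ} (ha : 1 ≤ a)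
    (hU : ∀ m : ℕ, h m ≤ (C : ℕ∞) * ((m : ℕ∞) + 1) ^ e)
    (hL : ∀ n : ℕ, 1 ≤ n → (n : ℕ∞) ^ e ≤ h (a * n)) : kodDim h = e := by
  have h1 : kodDim h = (e : EReal) + kodDim (fun _ => 1) := by
    refine kodDim_eq (C := C * 2 ^ e) (φ := fun m => m) (a := 1) (c := 0) (a' := a) ha tendsto_id
      (fun m => by simp) (fun m hm _ => hm) (fun m hm => ?_) (fun n hn => ?_) (fun _ _ _ _ h => h)
    · refine (hU m).trans ?_
      have h2 : ((m : ℕ∞) + 1) ^ e ≤ (2 * (m : ℕ∞)) ^ e := by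
        have h3 : m + 1 ≤ 2 * m := by omega
        have h4 : (m : ℕ∞) + 1 ≤ 2 * (m : ℕ∞) := by exact_mod_cast h3
        exact pow_le_pow_left' h4 e
      calc (C : ℕ∞) * ((m : ℕ∞) + 1) ^ e ≤ (C : ℕ∞) * (2 * (m : ℕ∞)) ^ e := by gcongr
        _ = ((C * 2 ^ e : ℕ) : ℕ∞) * (m : ℕ∞) ^ e * 1 := by
          rw [mul_pow, mul_one, ← mul_assoc]
          push_cast
          rfl
    · rw [mul_one]
      exact hL n hn
  rw [h1, kodDim_one, add_zero]

lemma logGrowth_le_of_bound {h : ℕ → ℕ∞} {e C : ℕ}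
    (hU : ∀ m : ℕ, h m ≤ (C : ℕ∞) * ((m : ℕ∞) + 1) ^ e) : logGrowth h ≤ e := by
  have h1 : logGrowth h ≤ (e : EReal) + logGrowth (fun _ => 1) := by
    refine logGrowth_le (C := C * 2 ^ e) (φ := fun m => m) (a := 1) (c := 0) tendsto_id
      (fun m => by simp) ?_
    filter_upwards [eventually_ge_atTop 1] with m hm
    refine (hU m).trans ?_
    have h2 : ((m : ℕ∞) + 1) ^ e ≤ (2 * (m : ℕ∞)) ^ e := by
      have h3 : m + 1 ≤ 2 * m := by omega
      have h4 : (m : ℕ∞) + 1 ≤ 2 * (m : ℕ∞) := by exact_mod_cast h3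
      exact pow_le_pow_left' h4 e
    calc (C : ℕ∞) * ((m : ℕ∞) + 1) ^ e ≤ (C : ℕ∞) * (2 * (m : ℕ∞)) ^ e := by gcongr
      _ = ((C * 2 ^ e : ℕ) : ℕ∞) * (m : ℕ∞) ^ e * 1 := by
        rw [mul_pow, mul_one, ← mul_assoc]
        push_cast
        rfl
  rwa [logGrowth_one, add_zero] at h1

lemma le_logGrowth_of_bound {h : ℕ → ℕ∞} {e a : ℕ} (ha : 1 ≤ a)
    (hL : ∀ n : ℕ, 1 ≤ n → (n : ℕ∞) ^ e ≤ h (a * n)) : (e : EReal) ≤ logGrowth h := by
  have h1 : (e : EReal) + logGrowth (fun _ => 1) ≤ logGrowth h :=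
    le_logGrowth ha fun n hn => by
      rw [mul_one]
      exact hL n hn
  rwa [logGrowth_one, add_zero] at h1

/-- The two dimensions of a divisor with a combinatorial model. -/
theorem kod_nu_of_model {k L : Type*} [Field k] [CharZero k] [Field L] [Algebra k L]
    (X : ProjVar k L) (D : X.Div) {r s : ℕ} {H : Type*} [Fintype H] (B : BData k r s H) {N : ℕ}
    (hN : 1 ≤ N) (M : H → ℚ)
    (h1 : ∀ n : ℕ, X.h0 (((N * n : ℕ) : ℚ) • D) = sdim (B.sec ((n : ℚ) • M)))
    (h2 : ∀ A : X.Div, ∃ A' : H → ℚ, ∀ m : ℕ,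
      X.h0 ((m : ℚ) • D + A) ≤ sdim (B.sec (((m : ℚ) / N) • M + A'))) :
    (X.kod D = ⊥ ∧ X.nu D = ⊥) ∨ ∃ e : ℕ, X.kod D = e ∧ X.nu D = e := by
  classical
  have hN0 : (N : ℚ) ≠ 0 := by
    have : N ≠ 0 := by omega
    exact_mod_cast this
  set M' : H → ℚ := (1 / (N : ℚ)) • M with hM'
  have h3 : ∀ n : ℕ, X.h0 (((N * n : ℕ) : ℚ) • D) = sdim (B.sec (((N * n : ℕ) : ℚ) • M')) := by
    intro n
    rw [h1]
    congr 2
    rw [hM', smul_smul]
    congr 1
    push_cast
    field_simp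
  have h4 : ∀ A : X.Div, ∃ A' : H → ℚ, ∀ m : ℕ,
      X.h0 ((m : ℚ) • D + A) ≤ sdim (B.sec ((m : ℚ) • M' + A')) := by
    intro A
    obtain ⟨A', hA'⟩ := h2 A
    refine ⟨A', fun m => (hA' m).trans (le_of_eq ?_)⟩
    congr 3
    rw [hM', smul_smul]
    congr 1
    ring
  by_cases hP : ∃ u : Fin s → ℚ, ∀ i, 0 ≤ pairL (B.w i) u + M' i
  · right
    obtain ⟨𝒢⟩ := exists_geo B M' hP
    obtain ⟨a, ha, hL⟩ := 𝒢.lower
    set e := 𝒢.ρ + finrank k (linForms fun i : 𝒢.J => B.v i.1) with he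
    have hL' : ∀ n : ℕ, 1 ≤ n → (n : ℕ∞) ^ e ≤ X.h0 (((N * a * n : ℕ) : ℚ) • D) := by
      intro n hn
      have h5 : N * a * n = N * (a * n) := by ring
      have h6 : N * (a * n) = a * (N * n) := by ring
      rw [h5, h3, h6]
      have h7 := hL (N * n) (Nat.mul_pos hN hn)
      refine le_trans ?_ h7
      have h8 : n ≤ N * n := Nat.le_mul_of_pos_left _ hN
      have h9 : (n : ℕ∞) ≤ ((N * n : ℕ) : ℕ∞) := by exact_mod_cast h8
      exact pow_le_pow_left' h9 e
    have hNa : 1 ≤ N * a := Nat.mul_pos hN ha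
    refine ⟨e, ?_, ?_⟩
    · obtain ⟨A', hA'⟩ := h4 0
      obtain ⟨C, hC⟩ := 𝒢.upper A'
      refine kodDim_of_bounds hNa (C := C) (fun m => ?_) hL'
      have h5 := hA' m
      rw [add_zero] at h5
      exact h5.trans (hC m)
    · apply le_antisymm
      · refine iSup_le fun A => ?_
        obtain ⟨A', hA'⟩ := h4 A
        obtain ⟨C, hC⟩ := 𝒢.upper A'
        exact logGrowth_le_of_bound fun m => (hA' m).trans (hC m)
      · refine le_trans ?_ (le_iSup _ (0 : X.Div))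
        simp only [add_zero]
        exact le_logGrowth_of_bound hNa hL'
  · left
    obtain ⟨hb1, hb2⟩ := comb_empty B M' hP
    constructor
    · unfold ProjVar.kod kodDim
      rw [if_pos]
      intro m hm
      change X.h0 ((m : ℚ) • D) = 0
      by_contra hne
      have hint : X.IsInt ((m : ℚ) • D) := by
        by_contra hni
        apply hne
        unfold ProjVar.h0
        rw [if_neg hni]
      rw [X.h0_of_int hint] at hne
      have hbot : X.H0 ((m : ℚ) • D) ≠ ⊥ := by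
        intro h0
        apply hne
        rw [h0, sdim_bot]
      obtain ⟨f, hf, hf0⟩ := Submodule.exists_mem_ne_zero_of_ne_bot hbot
      have h5 := pow_mem_sec hf0 hf N
      have h6 : (N : ℚ) • ⇑((m : ℚ) • D) = ⇑(((N * m : ℕ) : ℚ) • D) := by
        funext P
        simp only [Pi.smul_apply, Finsupp.smul_apply, smul_eq_mul]
        push_cast
        ring
      have h7 : f ^ N ∈ X.H0 (((N * m : ℕ) : ℚ) • D) := by
        unfold ProjVar.H0
        rw [← h6]
        exact h5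
      have h8 : X.IsInt (((N * m : ℕ) : ℚ) • D) := by
        have h9 := hint.nsmul N
        rw [smul_smul] at h9
        convert h9 using 2
        push_cast
        ring
      have h10 : sdim (X.H0 (((N * m : ℕ) : ℚ) • D)) = 0 := by
        rw [← X.h0_of_int h8, h3, hb1 _ (Nat.mul_pos hN hm), sdim_bot]
      have h11 : X.H0 (((N * m : ℕ) : ℚ) • D) = ⊥ := by
        exact sdim_eq_zero.1 h10
      rw [h11, Submodule.mem_bot] at h7
      exact hf0 (pow_eq_zero_iff (by omega) |>.1 h7)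
    · rw [eq_bot_iff]
      refine iSup_le fun A => ?_
      obtain ⟨A', hA'⟩ := h4 A
      obtain ⟨n₀, hn₀⟩ := hb2 A'
      rw [logGrowth_eq_bot]
      filter_upwards [eventually_ge_atTop n₀] with m hm
      have h5 := hA' m
      rw [hn₀ m hm, sdim_bot] at h5
      exact le_antisymm h5 zero_le

end Pool.Agent.Helper93.KN
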