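import Pool.Agent.Helper93.KN.PVal

set_option autoImplicit false

/-! Module KN-11. The geometry of the polytope `{u | 0 ≤ ⟨w_i, u⟩ + M_i}`.

PROOF. `exists_geo`: copy the beginning of `Pool.Agent.Helper92.Weak.exists_geom`
(`Pool/Agent/Helper92/Weak/Core2.lean`): `hsep`, `hneg` from `B.complete` and `farkas`, then
`poly_geometry`. The denominator `T` of `u₀`: `exists_int_multiple`.
`Geo.pair_zero`: `h0` at `u₀ ± ε b (inl j)` and `⟨w_i, u₀⟩ + M_i = 0`.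
`Geo.bound`: write `u - m u₀` in the basis `b`; for `i ∈ J` the `inl` part contributes `0` by `pair_zero`,
the `inr` part at most `C ∑_j |⟨w_i, b (inr j)⟩|` by `hbd`; and
`⟨w_i, u⟩ + m M_i = ⟨w_i, u - m u₀⟩ + m (⟨w_i, u₀⟩ + M_i)`.
`Geo.count`: `hbd` and `Pool.Agent.Helper92.Weak.count_lattice`, as in `finite_lattice` of Core2. -/

namespace Pool.Agent.Helper93.KN

open Module Pool.Agent.Helper92.Weak

/-- A basis of `ℚ^s` adapted to the polytope of the divisor `M`. -/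
structure Geo {k : Type*} [Field k] {r s : ℕ} {H : Type*} (B : BData k r s H) (M : H → ℚ) where
  u₀ : Fin s → ℚ
  ρ : ℕ
  t : ℕ
  b : Basis (Fin ρ ⊕ Fin t) ℚ (Fin s → ℚ)
  h0 : ∀ i, 0 ≤ pairL (B.w i) u₀ + M i
  bint : ∀ j, ∃ z : Fin s → ℤ, b j = fun l => (z l : ℚ)
  ε : ℚ
  ε_pos : 0 < ε
  hε : ∀ i j, 0 ≤ pairL (B.w i) (u₀ + ε • b (Sum.inl j)) + M i ∧
    0 ≤ pairL (B.w i) (u₀ - ε • b (Sum.inl j)) + M i
  hbd : ∀ α : H → ℚ, ∃ C : ℚ, 0 ≤ C ∧ ∀ m : ℕ, 1 ≤ m → ∀ u : Fin s → ℚ,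
    (∀ i, 0 ≤ pairL (B.w i) u + m * M i + α i) →
    (∀ j, |b.repr (u - (m : ℚ) • u₀) (Sum.inl j)| ≤ C * m) ∧
    (∀ j, |b.repr (u - (m : ℚ) • u₀) (Sum.inr j)| ≤ C)
  T : ℕ
  T_pos : 0 < T
  hT : ∃ z : Fin s → ℤ, (T : ℚ) • u₀ = fun l => (z l : ℚ)

variable {k : Type*} [Field k] {r s : ℕ} {H : Type*} {B : BData k r s H} {M : H → ℚ}

theorem exists_geo [Fintype H] (B : BData k r s H) (M : H → ℚ)
    (hP : ∃ u : Fin s → ℚ, ∀ i, 0 ≤ pairL (B.w i) u + M i) : Nonempty (Geo B M) := by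
  classical
  have hsep : ∀ z, (∀ i, pairL (B.w i) z = 0) → z = 0 := fun z hz =>
    B.complete z fun i => (hz i).ge
  have hneg : ∀ i, ∃ c : H → ℚ, (∀ j, 0 ≤ c j) ∧ -pairL (B.w i) = ∑ j, c j • pairL (B.w j) := by
    intro i
    rcases farkas (Finset.univ : Finset H) (fun j => pairL (B.w j)) (-pairL (B.w i)) with
      ⟨c, hc, h⟩ | ⟨y, hy, hyb⟩
    · exact ⟨c, fun j => hc j (Finset.mem_univ j), h⟩
    · exfalso
      -- `y` is evaluation at a vector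
      have hev : ∃ z : Fin s → ℚ, ∀ φ : (Fin s → ℚ) →ₗ[ℚ] ℚ, y φ = φ z := by
        refine ⟨fun l => y (LinearMap.proj l), fun φ => ?_⟩
        have h1 : φ = ∑ l, φ (Pi.single l 1) • (LinearMap.proj l : (Fin s → ℚ) →ₗ[ℚ] ℚ) := by
          apply LinearMap.ext
          intro u
          rw [LinearMap.sum_apply]
          simp only [LinearMap.smul_apply, LinearMap.proj_apply, smul_eq_mul]
          conv_lhs => rw [pi_eq_sum_univ' u]
          rw [map_sum]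
          refine Finset.sum_congr rfl fun l _ => ?_
          rw [map_smul, smul_eq_mul, mul_comm]
        conv_rhs => rw [h1]
        rw [LinearMap.sum_apply]
        conv_lhs => rw [h1]
        rw [map_sum]
        refine Finset.sum_congr rfl fun l _ => ?_
        rw [map_smul, LinearMap.smul_apply, LinearMap.proj_apply]
      obtain ⟨z, hz⟩ := hev
      have hz0 : z = 0 := by
        apply B.complete
        intro j
        rw [← hz]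
        exact hy j (Finset.mem_univ j)
      rw [hz, hz0] at hyb
      simp at hyb
  obtain ⟨u₀, ρ, t, b, h0, bint, -, ⟨ε, hε, hεb⟩, hbd⟩ :=
    poly_geometry (fun i => pairL (B.w i)) M hneg hsep hP
  obtain ⟨T, hT, z, hz⟩ := exists_int_multiple u₀
  exact ⟨⟨u₀, ρ, t, b, h0, bint, ε, hε, fun i j => ⟨(hεb j).1 i, (hεb j).2 i⟩, hbd, T, hT,
    z, hz⟩⟩

namespace Geo

/-- The boundary divisors `i` with `⟨w_i, u₀⟩ + M_i = 0`. -/
abbrev J (𝒢 : Geo B M) : Type _ := {i : H // pairL (B.w i) 𝒢.u₀ + M i = 0}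

theorem pair_zero (𝒢 : Geo B M) (i : 𝒢.J) (j : Fin 𝒢.ρ) :
    pairL (B.w i.1) (𝒢.b (Sum.inl j)) = 0 := by
  obtain ⟨h1, h2⟩ := 𝒢.hε i.1 j
  have h3 := i.2
  rw [map_add, map_smul, smul_eq_mul] at h1
  rw [map_sub, map_smul, smul_eq_mul] at h2
  have h4 : 𝒢.ε * pairL (B.w i.1) (𝒢.b (Sum.inl j)) = 0 := by linarith
  exact (mul_eq_zero.1 h4).resolve_left 𝒢.ε_pos.ne'

private lemma expand (𝒢 : Geo B M) (w : Fin s → ℤ) (z : Fin s → ℚ) :
    pairL w z = ∑ j, 𝒢.b.repr z (Sum.inl j) * pairL w (𝒢.b (Sum.inl j)) +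
      ∑ j, 𝒢.b.repr z (Sum.inr j) * pairL w (𝒢.b (Sum.inr j)) := by
  conv_lhs => rw [← 𝒢.b.sum_repr z]
  rw [Fintype.sum_sum_type, map_add, map_sum, map_sum]
  simp only [map_smul, smul_eq_mul]

private lemma sum_le {n : ℕ} (x a : Fin n → ℚ) {C : ℚ} (hx : ∀ j, |x j| ≤ C) :
    ∑ j, x j * a j ≤ C * ∑ j, |a j| := by
  rw [Finset.mul_sum]
  refine Finset.sum_le_sum fun j _ => ?_
  calc x j * a j ≤ |x j * a j| := le_abs_self _
    _ = |x j| * |a j| := abs_mul _ _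
    _ ≤ C * |a j| := mul_le_mul_of_nonneg_right (hx j) (abs_nonneg _)

theorem bound [Fintype H] (𝒢 : Geo B M) (α : H → ℚ) : ∃ c : ℚ, ∀ m : ℕ, 1 ≤ m →
    ∀ u : Fin s → ℚ, (∀ i, 0 ≤ pairL (B.w i) u + m * M i + α i) →
      ∀ i : 𝒢.J, pairL (B.w i.1) u + m * M i.1 + α i.1 ≤ c := by
  obtain ⟨C, hC0, hC⟩ := 𝒢.hbd α
  refine ⟨∑ i, (C * ∑ j, |pairL (B.w i) (𝒢.b (Sum.inr j))| + |α i|), ?_⟩
  intro m hm u hu i
  obtain ⟨-, h2⟩ := hC m hm u hu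
  have h3 : pairL (B.w i.1) u =
      pairL (B.w i.1) (u - (m : ℚ) • 𝒢.u₀) + m * pairL (B.w i.1) 𝒢.u₀ := by
    rw [map_sub, map_smul, smul_eq_mul]
    ring
  have h4 : pairL (B.w i.1) (u - (m : ℚ) • 𝒢.u₀) ≤
      C * ∑ j, |pairL (B.w i.1) (𝒢.b (Sum.inr j))| := by
    rw [expand 𝒢]
    have h5 : ∑ j, 𝒢.b.repr (u - (m : ℚ) • 𝒢.u₀) (Sum.inl j) *
        pairL (B.w i.1) (𝒢.b (Sum.inl j)) = 0 :=
      Finset.sum_eq_zero fun j _ => by rw [𝒢.pair_zero i j, mul_zero]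
    rw [h5, zero_add]
    exact sum_le _ _ h2
  have h6 : C * ∑ j, |pairL (B.w i.1) (𝒢.b (Sum.inr j))| + |α i.1| ≤
      ∑ i, (C * ∑ j, |pairL (B.w i) (𝒢.b (Sum.inr j))| + |α i|) := by
    refine Finset.single_le_sum
      (f := fun i => C * ∑ j, |pairL (B.w i) (𝒢.b (Sum.inr j))| + |α i|) ?_ (Finset.mem_univ i.1)
    intro l _
    exact add_nonneg (mul_nonneg hC0 (Finset.sum_nonneg fun _ _ => abs_nonneg _)) (abs_nonneg _)
  have h7 := i.2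
  have h8 := le_abs_self (α i.1)
  have h9 : (m : ℚ) * (pairL (B.w i.1) 𝒢.u₀ + M i.1) = 0 := by rw [h7, mul_zero]
  rw [h3]
  linarith

/-- Linear bound for the remaining boundary divisors. -/
theorem bound' [Fintype H] (𝒢 : Geo B M) (α : H → ℚ) : ∃ c : ℕ, ∀ m : ℕ, 1 ≤ m →
    ∀ u : Fin s → ℚ, (∀ i, 0 ≤ pairL (B.w i) u + m * M i + α i) →
      ∀ i, pairL (B.w i) u + m * M i + α i ≤ c * m := by
  obtain ⟨C, hC0, hC⟩ := 𝒢.hbd α
  set F : H → ℚ := fun i => C * ∑ j, |pairL (B.w i) (𝒢.b (Sum.inl j))| +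
    C * ∑ j, |pairL (B.w i) (𝒢.b (Sum.inr j))| + (pairL (B.w i) 𝒢.u₀ + M i) + |α i| with hF
  have hF0 : ∀ i, 0 ≤ F i := by
    intro i
    have h1 := mul_nonneg hC0 (Finset.sum_nonneg fun j (_ : j ∈ (Finset.univ : Finset (Fin 𝒢.ρ))) =>
      abs_nonneg (pairL (B.w i) (𝒢.b (Sum.inl j))))
    have h2 := mul_nonneg hC0 (Finset.sum_nonneg fun j (_ : j ∈ (Finset.univ : Finset (Fin 𝒢.t))) =>
      abs_nonneg (pairL (B.w i) (𝒢.b (Sum.inr j))))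
    have h3 := 𝒢.h0 i
    have h4 := abs_nonneg (α i)
    rw [hF]
    simp only
    linarith
  obtain ⟨c, hc⟩ := exists_nat_ge (∑ i, F i)
  refine ⟨c, ?_⟩
  intro m hm u hu i
  obtain ⟨h1, h2⟩ := hC m hm u hu
  have hm1 : (1 : ℚ) ≤ m := by exact_mod_cast hm
  have h3 : pairL (B.w i) u =
      pairL (B.w i) (u - (m : ℚ) • 𝒢.u₀) + m * pairL (B.w i) 𝒢.u₀ := by
    rw [map_sub, map_smul, smul_eq_mul]
    ring
  have h4 : pairL (B.w i) (u - (m : ℚ) • 𝒢.u₀) ≤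
      C * m * ∑ j, |pairL (B.w i) (𝒢.b (Sum.inl j))| +
        C * ∑ j, |pairL (B.w i) (𝒢.b (Sum.inr j))| := by
    rw [expand 𝒢]
    exact add_le_add (sum_le _ _ h1) (sum_le _ _ h2)
  have h5 : 0 ≤ C * ∑ j, |pairL (B.w i) (𝒢.b (Sum.inr j))| :=
    mul_nonneg hC0 (Finset.sum_nonneg fun _ _ => abs_nonneg _)
  have h6 : F i ≤ ∑ i, F i := Finset.single_le_sum (fun l _ => hF0 l) (Finset.mem_univ i)
  have h7 : pairL (B.w i) u + m * M i + α i ≤ F i * m := by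
    have h8 := le_abs_self (α i)
    have h9 := abs_nonneg (α i)
    have h10 : |α i| ≤ |α i| * m := le_mul_of_one_le_right h9 hm1
    have h11 : C * ∑ j, |pairL (B.w i) (𝒢.b (Sum.inr j))| ≤
        (C * ∑ j, |pairL (B.w i) (𝒢.b (Sum.inr j))|) * m := le_mul_of_one_le_right h5 hm1
    rw [hF, h3]
    simp only
    nlinarith [h4, h8, h10, h11]
  exact h7.trans (mul_le_mul_of_nonneg_right (h6.trans hc) (by positivity))

theorem count [Fintype H] (𝒢 : Geo B M) (α : H → ℚ) : ∃ C : ℕ, ∀ m : ℕ, 1 ≤ m →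
    ∃ S : Finset (Fin s → ℤ), S.card ≤ C * m ^ 𝒢.ρ ∧ ∀ u : Fin s → ℤ, u ∈ S ↔
      ∀ i, 0 ≤ pairL (B.w i) (fun l => (u l : ℚ)) + m * M i + α i := by
  classical
  obtain ⟨C, hC0, hC⟩ := 𝒢.hbd α
  obtain ⟨C', hC'⟩ := count_lattice 𝒢.b 𝒢.u₀ C
  refine ⟨C', fun m hm => ?_⟩
  set S : Set (Fin s → ℤ) :=
    {u | ∀ i, 0 ≤ pairL (B.w i) (fun l => (u l : ℚ)) + m * M i + α i} with hSdef
  have hbound : ∀ U : Finset (Fin s → ℤ), (↑U : Set (Fin s → ℤ)) ⊆ S → U.card ≤ C' * m ^ 𝒢.ρ :=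
    fun U hU => hC' m hm U fun u hu => hC m hm _ (hU hu)
  have hfin : S.Finite := by
    by_contra hinf
    obtain ⟨U, hU, hcard⟩ := Set.Infinite.exists_subset_card_eq hinf (C' * m ^ 𝒢.ρ + 1)
    have := hbound U hU
    omega
  refine ⟨hfin.toFinset, hbound _ (by simp), fun u => ?_⟩
  rw [Set.Finite.mem_toFinset, hSdef, Set.mem_ofPred_eq]

end Geo

end Pool.Agent.Helper93.KN
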