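import Pool.Agent.Helper92.Weak.Core

set_option autoImplicit false

/-!
# Translation invariant valuations on polynomial rings
-/

namespace Pool.Agent.Helper93.KN

open MvPolynomial

section Shift

variable {k σ : Type*} [Field k]

/-- The translation `f(x) ↦ f(x + a)`. -/
noncomputable def shift (a : σ → k) : MvPolynomial σ k →ₐ[k] MvPolynomial σ k :=
  aeval fun i => X i + C (a i)

@[simp] lemma shift_X (a : σ → k) (i : σ) : shift a (X i) = X i + C (a i) := by
  simp [shift]

@[simp] lemma shift_C (a : σ → k) (c : k) : shift a (C c) = C c := by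
  simp [shift]

lemma shift_shift (a b : σ → k) (f : MvPolynomial σ k) :
    shift a (shift b f) = shift (a + b) f := by
  have h : (shift a).comp (shift b) = shift (a + b) := by
    apply algHom_ext
    intro i
    simp [add_assoc]
  exact DFunLike.congr_fun h f

lemma shift_zero (f : MvPolynomial σ k) : shift (0 : σ → k) f = f := by
  have h : shift (0 : σ → k) = AlgHom.id k (MvPolynomial σ k) := by
    apply algHom_ext
    intro i
    simp
  rw [h]
  rfl

lemma shift_comm (a b : σ → k) (f : MvPolynomial σ k) :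
    shift a (shift b f) = shift b (shift a f) := by
  rw [shift_shift, shift_shift, add_comm]

lemma shift_injective (a : σ → k) : Function.Injective (shift (k := k) a) := by
  intro f g h
  have h1 := congrArg (shift (-a)) h
  rwa [shift_shift, shift_shift, neg_add_cancel, shift_zero, shift_zero] at h1

lemma shift_ne_zero (a : σ → k) {f : MvPolynomial σ k} (hf : f ≠ 0) : shift a f ≠ 0 := by
  rw [← map_zero (shift a)]
  exact fun h => hf (shift_injective a h)

end Shift

/-- A valuation on the polynomial ring `k[x_i : i ∈ σ]`, trivial on `k` and invariant under the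
translations `x ↦ x + a`. (The value at `0` is the junk value `0`.) -/
structure PVal (k σ : Type*) [Field k] where
  toFun : MvPolynomial σ k → ℤ
  map_zero' : toFun 0 = 0
  map_mul' : ∀ f g, f ≠ 0 → g ≠ 0 → toFun (f * g) = toFun f + toFun g
  map_add' : ∀ f g, f ≠ 0 → g ≠ 0 → f + g ≠ 0 → min (toFun f) (toFun g) ≤ toFun (f + g)
  map_C' : ∀ c, toFun (C c) = 0
  map_shift' : ∀ a f, toFun (shift a f) = toFun f

namespace PVal

variable {k σ : Type*} [Field k]

instance : CoeFun (PVal k σ) fun _ => MvPolynomial σ k → ℤ := ⟨PVal.toFun⟩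

variable (v : PVal k σ)

@[simp] lemma map_zero : v 0 = 0 := v.map_zero'

lemma map_mul {f g : MvPolynomial σ k} (hf : f ≠ 0) (hg : g ≠ 0) : v (f * g) = v f + v g :=
  v.map_mul' f g hf hg

@[simp] lemma map_C (c : k) : v (C c) = 0 := v.map_C' c

@[simp] lemma map_shift (a : σ → k) (f : MvPolynomial σ k) : v (shift a f) = v f :=
  v.map_shift' a f

@[simp] lemma map_one : v 1 = 0 := by
  rw [← C_1]
  exact v.map_C 1

/-- `v f ≥ n` (or `f = 0`). -/
def Ge (n : ℚ) (f : MvPolynomial σ k) : Prop := f = 0 ∨ n ≤ v f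

variable {v}

@[simp] lemma Ge.zero {n : ℚ} : v.Ge n 0 := Or.inl rfl

lemma ge_iff {n : ℚ} {f : MvPolynomial σ k} (hf : f ≠ 0) : v.Ge n f ↔ n ≤ v f := by
  unfold Ge
  simp [hf]

lemma ge_self (f : MvPolynomial σ k) : v.Ge (v f) f := Or.inr le_rfl

lemma Ge.mono {n m : ℚ} {f : MvPolynomial σ k} (h : v.Ge n f) (hm : m ≤ n) : v.Ge m f :=
  h.imp id fun h => hm.trans h

lemma Ge.add {n : ℚ} {f g : MvPolynomial σ k} (hf : v.Ge n f) (hg : v.Ge n g) :
    v.Ge n (f + g) := by
  by_cases hf0 : f = 0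
  · rwa [hf0, zero_add]
  by_cases hg0 : g = 0
  · rwa [hg0, add_zero]
  by_cases h0 : f + g = 0
  · exact Or.inl h0
  rw [ge_iff hf0] at hf
  rw [ge_iff hg0] at hg
  rw [ge_iff h0]
  have h1 := v.map_add' f g hf0 hg0 h0
  have h2 : ((min (v f) (v g) : ℤ) : ℚ) ≤ v (f + g) := by exact_mod_cast h1
  rw [Int.cast_min] at h2
  exact (le_min hf hg).trans h2

lemma Ge.mul {n m : ℚ} {f g : MvPolynomial σ k} (hf : v.Ge n f) (hg : v.Ge m g) :
    v.Ge (n + m) (f * g) := by
  by_cases hf0 : f = 0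
  · rw [hf0, zero_mul]; exact Ge.zero
  by_cases hg0 : g = 0
  · rw [hg0, mul_zero]; exact Ge.zero
  rw [ge_iff hf0] at hf
  rw [ge_iff hg0] at hg
  rw [ge_iff (mul_ne_zero hf0 hg0), v.map_mul hf0 hg0]
  push_cast
  linarith

lemma ge_C {n : ℚ} (hn : n ≤ 0) (c : k) : v.Ge n (C c) := by
  right
  simpa using hn

lemma Ge.C_mul {n : ℚ} {f : MvPolynomial σ k} (hf : v.Ge n f) (c : k) : v.Ge n (C c * f) := by
  have h := Ge.mul (ge_C (v := v) le_rfl c) hf
  rwa [zero_add] at h

lemma Ge.smul {n : ℚ} {f : MvPolynomial σ k} (hf : v.Ge n f) (c : k) : v.Ge n (c • f) := by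
  rw [smul_eq_C_mul]
  exact hf.C_mul c

lemma Ge.neg {n : ℚ} {f : MvPolynomial σ k} (hf : v.Ge n f) : v.Ge n (-f) := by
  have h := hf.smul (-1)
  rwa [neg_one_smul] at h

lemma Ge.sub {n : ℚ} {f g : MvPolynomial σ k} (hf : v.Ge n f) (hg : v.Ge n g) :
    v.Ge n (f - g) := by
  rw [sub_eq_add_neg]
  exact hf.add hg.neg

lemma Ge.sum {ι : Type*} {s : Finset ι} {f : ι → MvPolynomial σ k} {n : ℚ}
    (h : ∀ i ∈ s, v.Ge n (f i)) : v.Ge n (∑ i ∈ s, f i) := by
  classical
  induction s using Finset.induction_on with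
  | empty => simp
  | insert a s ha ih =>
    rw [Finset.sum_insert ha]
    exact (h a (Finset.mem_insert_self a s)).add
      (ih fun i hi => h i (Finset.mem_insert_of_mem hi))

lemma Ge.prod {ι : Type*} {s : Finset ι} {f : ι → MvPolynomial σ k} {n : ι → ℚ}
    (h : ∀ i ∈ s, v.Ge (n i) (f i)) : v.Ge (∑ i ∈ s, n i) (∏ i ∈ s, f i) := by
  classical
  induction s using Finset.induction_on with
  | empty =>
    right
    simp
  | insert a s ha ih =>
    rw [Finset.sum_insert ha, Finset.prod_insert ha]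
    exact (h a (Finset.mem_insert_self a s)).mul
      (ih fun i hi => h i (Finset.mem_insert_of_mem hi))

lemma Ge.pow {n : ℚ} {f : MvPolynomial σ k} (hf : v.Ge n f) (m : ℕ) : v.Ge (m * n) (f ^ m) := by
  have h := Ge.prod (v := v) (s := Finset.range m) (f := fun _ => f) (n := fun _ => n)
    fun _ _ => hf
  simpa using h

lemma Ge.shift {n : ℚ} {f : MvPolynomial σ k} (hf : v.Ge n f) (a : σ → k) :
    v.Ge n (KN.shift a f) := by
  rcases hf with rfl | h
  · left; simp
  · right
    rwa [v.map_shift]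

variable (v) in
/-- The subspace `{f | v f ≥ n}`. -/
noncomputable def filt (n : ℚ) : Submodule k (MvPolynomial σ k) where
  carrier := {f | v.Ge n f}
  zero_mem' := Ge.zero
  add_mem' := Ge.add
  smul_mem' c _ h := h.smul c

@[simp] lemma mem_filt {n : ℚ} {f : MvPolynomial σ k} : f ∈ v.filt n ↔ v.Ge n f := Iff.rfl

end PVal

/-- The polynomials `f` with `v_i(f) ≥ -a_i` for all `i`. -/
noncomputable def filtAll {k σ ι : Type*} [Field k] (v : ι → PVal k σ) (a : ι → ℚ) :
    Submodule k (MvPolynomial σ k) := ⨅ i, (v i).filt (-(a i))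

lemma mem_filtAll {k σ ι : Type*} [Field k] {v : ι → PVal k σ} {a : ι → ℚ}
    {f : MvPolynomial σ k} : f ∈ filtAll v a ↔ ∀ i, (v i).Ge (-(a i)) f := by
  simp [filtAll]

/-- The combinatorial data of the boundary of a compactification of `𝔾_a^r × 𝔾_m^s`: for every
prime divisor `i` of the boundary its valuation `v i` on `k[x₁, ..., x_r]` and its values
`w i = (v(y₁), ..., v(y_s))`. -/
structure BData (k : Type*) [Field k] (r s : ℕ) (H : Type*) where
  v : H → PVal k (Fin r)
  w : H → Fin s → ℤ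
  complete : ∀ u : Fin s → ℚ, (∀ i, 0 ≤ Pool.Agent.Helper92.Weak.pairL (w i) u) → u = 0
  C : ℕ
  deg_le : ∀ (T : ℕ) (f : MvPolynomial (Fin r) k), (∀ i, (v i).Ge (-(T : ℚ)) f) →
    f.totalDegree ≤ C * (T + 1)

/-- The Laurent polynomials `∑ f_u y^u` with `v_i(f_u) + ⟨w_i, u⟩ ≥ -G_i` for all `u` and all
prime divisors `i` of the boundary. -/
noncomputable def BData.sec {k : Type*} [Field k] {r s : ℕ} {H : Type*} (B : BData k r s H) (G : H → ℚ) :
    Submodule k ((Fin s → ℤ) →₀ MvPolynomial (Fin r) k) where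
  carrier := {f | ∀ u i, (B.v i).Ge
    (-(G i) - Pool.Agent.Helper92.Weak.pairL (B.w i) (fun l => (u l : ℚ))) (f u)}
  zero_mem' u i := by simp
  add_mem' {f g} hf hg u i := by
    rw [Finsupp.add_apply]
    exact (hf u i).add (hg u i)
  smul_mem' c f hf u i := by
    rw [Finsupp.smul_apply]
    exact (hf u i).smul c

lemma BData.mem_sec {k : Type*} [Field k] {r s : ℕ} {H : Type*} {B : BData k r s H} {G : H → ℚ}
    {f : (Fin s → ℤ) →₀ MvPolynomial (Fin r) k} : f ∈ B.sec G ↔ ∀ u i, (B.v i).Ge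
    (-(G i) - Pool.Agent.Helper92.Weak.pairL (B.w i) (fun l => (u l : ℚ))) (f u) := Iff.rfl

end Pool.Agent.Helper93.KN
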