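import Mathlib

set_option autoImplicit false

/-! Module KN-05. Linearly independent polynomials have a nonzero evaluation determinant. -/

namespace Pool.Agent.Helper93.KN

open MvPolynomial

/-- Linearly independent functions on a set have a nonzero evaluation determinant. -/
theorem exists_points_fun {k X : Type*} [Field k] {b : ℕ} {g : Fin b → X → k}
    (hg : LinearIndependent k g) :
    ∃ p : Fin b → X, (Matrix.of fun i j => g j (p i)).det ≠ 0 := by
  classical
  set s : Set (Fin b → k) := Set.range fun x : X => fun j => g j x with hs
  have hspan : Submodule.span k s = ⊤ := by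
    by_contra hne
    obtain ⟨f, hf, hle⟩ := Submodule.exists_le_ker_of_lt_top (Submodule.span k s)
      (lt_top_iff_ne_top.2 hne)
    apply hf
    have hzero : ∀ x : X, f (fun j => g j x) = 0 := by
      intro x
      have : (fun j => g j x) ∈ Submodule.span k s := Submodule.subset_span ⟨x, rfl⟩
      exact LinearMap.mem_ker.1 (hle this)
    have hsum : ∑ j, f (Pi.single j 1) • g j = 0 := by
      funext x
      have h1 := hzero x
      rw [← Finset.univ_sum_single (fun j => g j x), map_sum] at h1
      rw [Finset.sum_apply, Pi.zero_apply, ← h1]
      refine Finset.sum_congr rfl fun j _ => ?_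
      have : (Pi.single j (g j x) : Fin b → k) = g j x • Pi.single j (1 : k) := by
        rw [← Pi.single_smul]; simp
      rw [this, map_smul, Pi.smul_apply, smul_eq_mul, smul_eq_mul, mul_comm]
    have hall : ∀ j, f (Pi.single j 1) = 0 :=
      Fintype.linearIndependent_iff.1 hg (fun j => f (Pi.single j 1)) hsum
    refine LinearMap.pi_ext' fun j => ?_
    ext
    simpa using hall j
  have hrank : Module.finrank k (Submodule.span k s) = b := by
    rw [hspan, finrank_top, Module.finrank_fin_fun]
  obtain ⟨f, hfs, -, hli⟩ := Submodule.exists_fun_fin_finrank_span_eq k s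
  choose p hp using hfs
  let q : Fin b → X := fun i => p (Fin.cast hrank.symm i)
  refine ⟨q, ?_⟩
  have hrow : LinearIndependent k (Matrix.of fun i j => g j (q i)).row := by
    have h2 : LinearIndependent k (f ∘ Fin.cast hrank.symm) :=
      hli.comp _ (Fin.cast_injective _)
    convert h2 using 1
    funext i
    rw [Function.comp_apply, ← hp]
    rfl
  have := (Matrix.isUnit_iff_isUnit_det _).1 (Matrix.linearIndependent_rows_iff_isUnit.1 hrow)
  exact this.ne_zero

theorem exists_points {k σ : Type*} [Field k] [CharZero k] {b : ℕ}
    {e : Fin b → MvPolynomial σ k} (he : LinearIndependent k e) :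
    ∃ p : Fin b → σ → k, (Matrix.of fun i j => eval (p i) (e j)).det ≠ 0 := by
  have hg : LinearIndependent k (fun j => fun x : σ → k => eval x (e j)) := by
    let L : MvPolynomial σ k →ₗ[k] ((σ → k) → k) :=
      { toFun := fun P x => eval x P
        map_add' := fun P Q => by funext x; simp
        map_smul' := fun c P => by funext x; simp }
    have hL : LinearMap.ker L = ⊥ := by
      rw [LinearMap.ker_eq_bot]
      intro P Q hPQ
      exact MvPolynomial.funext fun x => congrFun hPQ x
    exact he.map' L hL
  exact exists_points_fun hg

end Pool.Agent.Helper93.KN
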