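import Pool.Agent.Helper93.KN.Deriv

set_option autoImplicit false

/-! Module KN-02. Translations of polynomials.

PROOFS. `exists_pow_eq_zero`: `totalDegree (shift a f - f) < totalDegree f` unless `f` is constant
(then it is `0`): check for monomials, `shift a (monomial)` has the same top degree part. Induction
on the total degree.
`eq_C_of_shift`: `f(x + e_i) = f(x)` gives `f(x + n e_i) = f(x)` for all natural `n`, so for every
point `p` the one variable polynomial `f(p + T e_i) - f(p)` has infinitely many roots (`CharZero`),
hence `f(p + c e_i) = f(p)` for all `c : k`, all `p`; changing coordinates one after the other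
(finitely many variables occur in `f`; or: `pderiv i f = 0` for all `i`) `f` is constant
(`MvPolynomial.funext`, or `pderiv` criterion in characteristic zero).
`eq_one_of_shift`: compare the homogeneous components of degree `totalDegree f`: that of
`shift a f` is that of `f` (which is not `0`).
`affine_of_shift`: for all `a`, `shift a f - f` is constant. All second order derivatives of `f` vanish:
`shift a (pderiv i f) = pderiv i (shift a f) = pderiv i f` for all `a`, so `pderiv i f` is constant,
`= C (c i)`, by `eq_C_of_shift`; `f - ∑ C (c i) * X i` has all partial derivatives zero, so it is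
constant. -/

namespace Pool.Agent.Helper93.KN

open MvPolynomial

variable {k σ : Type*} [Field k] [CharZero k]

/-- `f` is zero or of total degree less than `n`. -/
def DegLT (n : ℕ) (f : MvPolynomial σ k) : Prop := f = 0 ∨ f.totalDegree < n

omit [CharZero k] in
lemma DegLT.add {n : ℕ} {f g : MvPolynomial σ k} (hf : DegLT n f) (hg : DegLT n g) :
    DegLT n (f + g) := by
  rcases hf with rfl | hf
  · rwa [zero_add]
  rcases hg with rfl | hg
  · rw [add_zero]; exact Or.inr hf
  · exact Or.inr (lt_of_le_of_lt (totalDegree_add f g) (max_lt hf hg))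

omit [CharZero k] in
lemma DegLT.mono {n m : ℕ} {f : MvPolynomial σ k} (hf : DegLT n f) (h : n ≤ m) : DegLT m f :=
  hf.imp id fun h1 => lt_of_lt_of_le h1 h

omit [CharZero k] in
lemma DegLT.mul {n m : ℕ} {f g : MvPolynomial σ k} (hf : DegLT n f)
    (hg : g.totalDegree ≤ m) : DegLT (n + m) (f * g) := by
  rcases hf with rfl | hf
  · left; rw [zero_mul]
  · right
    have := totalDegree_mul f g
    omega

omit [CharZero k] in
lemma DegLT.mul' {n m : ℕ} {f g : MvPolynomial σ k} (hf : DegLT n f)
    (hg : DegLT m g) : DegLT (n + m) (f * g) := by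
  rcases hg with rfl | hg
  · left; rw [mul_zero]
  · exact hf.mul hg.le

omit [CharZero k] in
lemma DegLT.sum {ι : Type*} {s : Finset ι} {f : ι → MvPolynomial σ k} {n : ℕ}
    (h : ∀ i ∈ s, DegLT n (f i)) : DegLT n (∑ i ∈ s, f i) := by
  classical
  induction s using Finset.induction_on with
  | empty => left; simp
  | insert a s ha ih =>
    rw [Finset.sum_insert ha]
    exact (h a (Finset.mem_insert_self a s)).add
      (ih fun i hi => h i (Finset.mem_insert_of_mem hi))

omit [CharZero k] in
lemma degLT_monomial (a : σ → k) (s : σ →₀ ℕ) :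
    DegLT (s.sum fun _ e => e) (shift a (monomial s (1 : k)) - monomial s 1) := by
  have hmul : ∀ s t : σ →₀ ℕ,
      DegLT (s.sum fun _ e => e) (shift a (monomial s (1 : k)) - monomial s 1) →
      DegLT (t.sum fun _ e => e) (shift a (monomial t (1 : k)) - monomial t 1) →
      DegLT ((s + t).sum fun _ e => e) (shift a (monomial (s + t) (1 : k)) -
        monomial (s + t) 1) := by
    intro s t hs ht
    have h1 : (monomial (s + t) (1 : k)) = monomial s 1 * monomial t 1 := by
      rw [monomial_mul, one_mul]
    have h2 : ((s + t).sum fun _ e => e) = (s.sum fun _ e => e) + (t.sum fun _ e => e) :=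
      Finsupp.sum_add_index' (fun _ => rfl) (fun _ _ _ => rfl)
    have h3 : shift a (monomial (s + t) (1 : k)) - monomial (s + t) 1 =
        (shift a (monomial s (1 : k)) - monomial s 1) * monomial t 1 +
        ((shift a (monomial t (1 : k)) - monomial t 1) * monomial s 1 +
        (shift a (monomial s (1 : k)) - monomial s 1) *
          (shift a (monomial t (1 : k)) - monomial t 1)) := by
      rw [h1, map_mul]
      ring
    rw [h3, h2]
    refine (hs.mul (totalDegree_monomial_le t 1)).add (DegLT.add ?_ (hs.mul' ht))
    rw [add_comm]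
    exact ht.mul (totalDegree_monomial_le s 1)
  induction s using Finsupp.induction_linear with
  | zero =>
    left
    rw [monomial_zero', C_1, map_one, sub_self]
  | add s t hs ht => exact hmul s t hs ht
  | single j n =>
    induction n with
    | zero =>
      left
      rw [Finsupp.single_zero, monomial_zero', C_1, map_one, sub_self]
    | succ n ih =>
      rw [Finsupp.single_add]
      refine hmul _ _ ih ?_
      rw [Finsupp.sum_single_index rfl]
      have h1 : (monomial (Finsupp.single j 1) (1 : k) : MvPolynomial σ k) = X j := rfl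
      rw [h1, shift_X, add_sub_cancel_left]
      right
      rw [totalDegree_C]
      exact Nat.one_pos

omit [CharZero k] in
lemma degLT_shift_sub (a : σ → k) (f : MvPolynomial σ k) :
    DegLT f.totalDegree (shift a f - f) := by
  classical
  have h1 : shift a f - f = ∑ s ∈ f.support,
      (shift a (monomial s (1 : k)) - monomial s 1) * C (coeff s f) := by
    conv_lhs => rw [f.as_sum]
    rw [map_sum, ← Finset.sum_sub_distrib]
    refine Finset.sum_congr rfl fun s _ => ?_
    have h2 : monomial s (coeff s f) = monomial s (1 : k) * C (coeff s f) := by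
      rw [mul_comm, C_mul_monomial, mul_one]
    rw [h2, map_mul, shift_C]
    ring
  rw [h1]
  refine DegLT.sum fun s hs => ?_
  have h2 := (degLT_monomial a s).mul (m := 0) (le_of_eq (totalDegree_C (coeff s f)))
  exact h2.mono (le_totalDegree hs)

omit [CharZero k] in
lemma exists_pow_aux (a : σ → k) (f : MvPolynomial σ k) :
    ∃ m : ℕ, (((shift a).toLinearMap - LinearMap.id : MvPolynomial σ k →ₗ[k] MvPolynomial σ k) ^ m)
      f = 0 := by
  induction hn : f.totalDegree using Nat.strong_induction_on generalizing f with
  | _ n ih =>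
    rcases degLT_shift_sub a f with h | h
    · refine ⟨1, ?_⟩
      rw [pow_one]
      exact h
    · obtain ⟨m, hm⟩ := ih _ (hn ▸ h) _ rfl
      refine ⟨m + 1, ?_⟩
      rw [pow_succ]
      exact hm

theorem exists_pow_eq_zero (a : σ → k) (f : MvPolynomial σ k) :
    ∃ m : ℕ, (((shift a).toLinearMap - LinearMap.id : MvPolynomial σ k →ₗ[k] MvPolynomial σ k) ^ m)
      f = 0 := exists_pow_aux a f

lemma pderiv_eq_zero_of_shift [DecidableEq σ] {f : MvPolynomial σ k} {i : σ}
    (h : shift (Pi.single i (1 : k)) f = f) : pderiv i f = 0 := by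
  have h1 : ∀ n : ℕ, shift (Pi.single i (n : k)) f = f := by
    intro n
    induction n with
    | zero => rw [Nat.cast_zero, Pi.single_zero, shift_zero]
    | succ n ih =>
      rw [Nat.cast_add, Nat.cast_one, Pi.single_add, ← shift_shift, h, ih]
  have h2 : tay i f - Polynomial.C f = 0 := by
    refine Polynomial.eq_zero_of_infinite_isRoot _ ?_
    have h3 : Function.Injective (fun n : ℕ => (C (n : k) : MvPolynomial σ k)) := fun n m hh =>
      Nat.cast_injective (C_injective σ k hh)
    refine (Set.infinite_range_of_injective h3).mono ?_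
    rintro _ ⟨n, rfl⟩
    show Polynomial.IsRoot _ _
    rw [Polynomial.IsRoot, Polynomial.eval_sub, eval_tay, Polynomial.eval_C, h1, sub_self]
  rw [← tay_coeff_one, sub_eq_zero.1 h2, Polynomial.coeff_C, if_neg one_ne_zero]

/-- A polynomial invariant under the unit translations is constant. -/
theorem eq_C_of_shift [DecidableEq σ] (f : MvPolynomial σ k)
    (h : ∀ i, shift (Pi.single i (1 : k)) f = f) : ∃ c : k, f = C c :=
  ⟨_, eq_C_of_pderiv fun i => pderiv_eq_zero_of_shift (h i)⟩

theorem eq_one_of_shift (a : σ → k) {f : MvPolynomial σ k} (hf : f ≠ 0) {c : k}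
    (h : shift a f = C c * f) : c = 1 := by
  by_contra hc
  have hc' : c - 1 ≠ 0 := sub_ne_zero.2 hc
  have h1 : shift a f - f = (c - 1) • f := by
    rw [h, sub_smul, one_smul, smul_eq_C_mul]
  rcases degLT_shift_sub a f with h2 | h2
  · rw [h1, smul_eq_zero] at h2
    exact h2.elim hc' hf
  · have h3 : f = (c - 1)⁻¹ • ((c - 1) • f) := by
      rw [smul_smul, inv_mul_cancel₀ hc', one_smul]
    have h4 := totalDegree_smul_le (c - 1)⁻¹ ((c - 1) • f)
    rw [← h3, ← h1] at h4
    omega

omit [CharZero k] in
lemma pderiv_shift [DecidableEq σ] (a : σ → k) (i : σ) (f : MvPolynomial σ k) :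
    pderiv i (shift a f) = shift a (pderiv i f) := by
  induction f using MvPolynomial.induction_on with
  | C c => rw [shift_C, pderiv_C, map_zero]
  | add p q hp hq => rw [map_add, map_add, hp, hq, map_add, map_add]
  | mul_X p j hp =>
    rw [map_mul, pderiv_mul, hp, shift_X, pderiv_mul, map_add (pderiv i) (X j), pderiv_C,
      add_zero, map_add (shift a), map_mul (shift a), map_mul (shift a), shift_X]
    congr 2
    by_cases h : j = i
    · subst h
      rw [pderiv_X_self, map_one]
    · rw [pderiv_X_of_ne h, map_zero]

/-- A polynomial whose differences `f(x + a) - f(x)` are constant is affine linear. -/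
theorem affine_of_shift [Fintype σ] (f : MvPolynomial σ k)
    (h : ∀ a : σ → k, ∃ c : k, shift a f = f + C c) :
    ∃ (c₀ : k) (c : σ → k), f = C c₀ + ∑ i, C (c i) * X i := by
  classical
  have h1 : ∀ i, ∃ c : k, pderiv i f = C c := by
    intro i
    apply eq_C_of_shift
    intro j
    obtain ⟨c, hc⟩ := h (Pi.single j 1)
    rw [← pderiv_shift, hc, map_add, pderiv_C, add_zero]
  choose c hc using h1
  have h2 : ∀ i, pderiv i (f - ∑ j, C (c j) * X j) = 0 := by
    intro i
    rw [map_sub, map_sum, hc i]
    have h3 : ∀ j, pderiv i (C (c j) * X j : MvPolynomial σ k) = if j = i then C (c j) else 0 := by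
      intro j
      rw [pderiv_C_mul]
      by_cases h : j = i
      · subst h
        rw [pderiv_X_self, mul_one, if_pos rfl]
      · rw [pderiv_X_of_ne h, mul_zero, if_neg h]
    rw [Finset.sum_congr rfl fun j _ => h3 j, Finset.sum_ite_eq' Finset.univ i,
      if_pos (Finset.mem_univ _), sub_self]
  refine ⟨coeff 0 (f - ∑ j, C (c j) * X j), c, ?_⟩
  have h3 := eq_C_of_pderiv h2
  rw [← h3]
  ring

end Pool.Agent.Helper93.KN
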