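import Pool.Agent.Helper93.KN.PowMod
import Pool.Agent.Helper93.KN.Points
import Pool.Agent.Helper93.KN.ShiftLem

set_option autoImplicit false

/-! Module KN-06. The semi-invariant power series.

PROOF. `D = shift a₀ - 1` on `S = MvPolynomial σ k` is locally nilpotent (`exists_pow_eq_zero`), maps `E` to
`E`; `exists_series` gives `b`, `F`. For all `a`, `shift a` commutes with `D` and preserves `E`, so
`PowerSeries.map (shift a) (F j)` has the property of the last statement of `exists_series`, so it is
`∑_l A(a)_{l j} F l` with `A(a)` a matrix over `PowerSeries k`. For `a = a₀`: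
`map (shift a₀) (F j) = (1 + T) F j` (coefficientwise: `shift a₀ f_m = f_m + D f_m`, `D f_m = f_{m-1}`).
`exists_points` gives `p` with `det (eval (p i) (e j)) ≠ 0`, `e j = coeff 0 (F j)`. Put
`Φ = det (map (shift (p i)) (F j))_{i,j}` (`RingHom.map_det`). Then
`map (shift a) Φ = det (map (shift (p i)) (map (shift a) (F j))) = det ((map (shift (p i)) F_l)_{i,l} * A(a))`
`= det A(a) * Φ`: put `χ = det A(a)`; for `a₀` the same computation gives `(1 + T)^b Φ`.
`Φ₀ = coeff 0 Φ = det (shift (p i) (e j))` (`coeff 0` is the ring homomorphism `constantCoeff`), nonzero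
since its value at `0` is `det (eval (p i) (e j))`. From `map (shift a) Φ = χ Φ`: `shift a Φ₀ = C (χ₀) Φ₀`,
so `χ₀ = 1` by `eq_one_of_shift`, so `Φ₀` is invariant under all translations, `Φ₀ = C γ` by
`eq_C_of_shift`, `γ ≠ 0`. The coefficients of `Φ` lie in `E ^ b`: the determinant is a sum over
permutations of `± ∏` of `b` factors with coefficients in `E` (the set of power series with coefficients
in a submodule `E₁` times those with coefficients in `E₂` has coefficients in `E₁ * E₂`). -/

namespace Pool.Agent.Helper93.KN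

open MvPolynomial

section

variable {k σ : Type*} [Field k]

/-- The coefficients of a product. -/
private theorem ph_mul {E₁ E₂ : Submodule k (MvPolynomial σ k)}
    {f g : PowerSeries (MvPolynomial σ k)} (hf : ∀ m, PowerSeries.coeff m f ∈ E₁)
    (hg : ∀ m, PowerSeries.coeff m g ∈ E₂) (m : ℕ) : PowerSeries.coeff m (f * g) ∈ E₁ * E₂ := by
  rw [PowerSeries.coeff_mul]
  exact Submodule.sum_mem _ fun p _ => Submodule.mul_mem_mul (hf _) (hg _)

private theorem ph_prod {ι : Type*} {E : Submodule k (MvPolynomial σ k)}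
    (s : Finset ι) (f : ι → PowerSeries (MvPolynomial σ k))
    (hf : ∀ i ∈ s, ∀ m, PowerSeries.coeff m (f i) ∈ E) (m : ℕ) :
    PowerSeries.coeff m (∏ i ∈ s, f i) ∈ E ^ s.card := by
  classical
  induction s using Finset.induction_on generalizing m with
  | empty =>
    rw [Finset.prod_empty, Finset.card_empty, pow_zero, PowerSeries.coeff_one]
    split_ifs
    · exact Submodule.one_le.1 le_rfl
    · exact Submodule.zero_mem _
  | insert a s ha ih =>
    rw [Finset.prod_insert ha, Finset.card_insert_of_notMem ha, pow_succ']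
    exact ph_mul (hf a (Finset.mem_insert_self a s))
      (fun m => ih (fun i hi => hf i (Finset.mem_insert_of_mem hi)) m) m

private theorem ph_det {b : ℕ} {E : Submodule k (MvPolynomial σ k)}
    (M : Matrix (Fin b) (Fin b) (PowerSeries (MvPolynomial σ k)))
    (hM : ∀ i j m, PowerSeries.coeff m (M i j) ∈ E) (m : ℕ) :
    PowerSeries.coeff m M.det ∈ E ^ b := by
  rw [Matrix.det_apply', map_sum]
  refine Submodule.sum_mem _ fun τ _ => ?_
  have h := ph_prod Finset.univ (fun i => M (τ i) i) (fun i _ m => hM _ _ m) m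
  rw [Finset.card_univ, Fintype.card_fin] at h
  rcases Int.units_eq_one_or (Equiv.Perm.sign τ) with h1 | h1
  · rw [h1]
    simpa using h
  · rw [h1]
    simpa using h

/-- The translations of power series. -/
private noncomputable def sh (a : σ → k) :
    PowerSeries (MvPolynomial σ k) →+* PowerSeries (MvPolynomial σ k) :=
  PowerSeries.map (shift a : MvPolynomial σ k →+* MvPolynomial σ k)

private theorem coeff_sh (a : σ → k) (f : PowerSeries (MvPolynomial σ k)) (m : ℕ) :
    PowerSeries.coeff m (sh a f) = shift a (PowerSeries.coeff m f) := by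
  unfold sh
  rw [PowerSeries.coeff_map]
  rfl

private theorem sh_comm (a a' : σ → k) (f : PowerSeries (MvPolynomial σ k)) :
    sh a (sh a' f) = sh a' (sh a f) := by
  ext1 m
  rw [coeff_sh, coeff_sh, coeff_sh, coeff_sh, shift_comm]

private theorem sh_const (a : σ → k) (χ : PowerSeries k) :
    sh a (PowerSeries.map (C : k →+* MvPolynomial σ k) χ) =
      PowerSeries.map (C : k →+* MvPolynomial σ k) χ := by
  ext1 m
  rw [coeff_sh, PowerSeries.coeff_map, shift_C]

private theorem sh_X (a : σ → k) :
    sh a (PowerSeries.X : PowerSeries (MvPolynomial σ k)) = PowerSeries.X := by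
  unfold sh
  exact PowerSeries.map_X _

private theorem eval_zero_shift (a : σ → k) (f : MvPolynomial σ k) :
    eval (0 : σ → k) (shift a f) = eval a f := by
  induction f using MvPolynomial.induction_on with
  | C c => rw [shift_C, eval_C, eval_C]
  | add p q hp hq => rw [map_add, map_add, hp, hq, map_add]
  | mul_X p i hp => rw [map_mul, map_mul, hp, shift_X, map_mul, map_add, eval_X, eval_C, eval_X]; simp

end

theorem exists_phi {k σ : Type*} [Field k] [CharZero k] (a₀ : σ → k)
    (E : Submodule k (MvPolynomial σ k)) (hE : ∀ (a : σ → k), ∀ f ∈ E, shift a f ∈ E)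
    (hfin : FiniteDimensional k
      (E ⊓ LinearMap.ker ((shift a₀).toLinearMap - LinearMap.id) : Submodule k (MvPolynomial σ k)))
    (hinf : ¬ FiniteDimensional k E) :
    ∃ (b : ℕ) (Φ : PowerSeries (MvPolynomial σ k)) (γ : k), 0 < b ∧ γ ≠ 0 ∧
      PowerSeries.coeff 0 Φ = C γ ∧
      (∀ a : σ → k, ∃ χ : PowerSeries k,
        PowerSeries.map (shift a : MvPolynomial σ k →+* MvPolynomial σ k) Φ =
          PowerSeries.map (C : k →+* MvPolynomial σ k) χ * Φ) ∧
      PowerSeries.map (shift a₀ : MvPolynomial σ k →+* MvPolynomial σ k) Φ =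
        (1 + PowerSeries.X) ^ b * Φ ∧
      ∀ m, PowerSeries.coeff m Φ ∈ E ^ b := by
  classical
  set D : MvPolynomial σ k →ₗ[k] MvPolynomial σ k :=
    (shift a₀).toLinearMap - LinearMap.id with hD
  have hDf : ∀ f, D f = shift a₀ f - f := fun f => rfl
  have hDE : ∀ f ∈ E, D f ∈ E := fun f hf => by
    rw [hDf]
    exact Submodule.sub_mem _ (hE a₀ f hf) hf
  have hDc : ∀ a f, D (shift a f) = shift a (D f) := fun a f => by
    rw [hDf, hDf, map_sub, shift_comm]
  obtain ⟨b, F, hb, hFE, hFs, hF0, hli, hrep⟩ :=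
    exists_series D E hDE (fun f _ => exists_pow_eq_zero a₀ f) hfin hinf
  have hA : ∀ (a : σ → k) (j : Fin b), ∃ γ : Fin b → PowerSeries k,
      sh a (F j) = ∑ l, PowerSeries.map (algebraMap k (MvPolynomial σ k)) (γ l) * F l := by
    intro a j
    refine hrep _ (fun m => ?_) (fun m => ?_) ?_
    · rw [coeff_sh]
      exact hE a _ (hFE j m)
    · rw [coeff_sh, coeff_sh, hDc, hFs]
    · rw [coeff_sh, hDc, hF0, map_zero]
  choose A hA using hA
  obtain ⟨p, hp⟩ := exists_points hli
  set M : Matrix (Fin b) (Fin b) (PowerSeries (MvPolynomial σ k)) :=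
    Matrix.of fun i j => sh (p i) (F j) with hM
  set χ : (σ → k) → PowerSeries k := fun a => (Matrix.of fun l j => A a j l).det with hχ
  have hsh : ∀ a, sh a M.det = PowerSeries.map (C : k →+* MvPolynomial σ k) (χ a) * M.det := by
    intro a
    rw [RingHom.map_det, hχ, RingHom.map_det, mul_comm, ← Matrix.det_mul]
    congr 1
    ext1 i j
    rw [RingHom.mapMatrix_apply, RingHom.mapMatrix_apply, Matrix.map_apply, Matrix.mul_apply]
    change sh a (sh (p i) (F j)) = ∑ l, sh (p i) (F l) *
      PowerSeries.map (C : k →+* MvPolynomial σ k) (A a j l)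
    rw [sh_comm, hA a j, map_sum]
    refine Finset.sum_congr rfl fun l _ => ?_
    rw [map_mul, mul_comm]
    congr 1
    exact sh_const _ _
  have hsh0 : sh a₀ M.det = (1 + PowerSeries.X) ^ b * M.det := by
    have h1 : ∀ j, sh a₀ (F j) = (1 + PowerSeries.X) * F j := by
      intro j
      ext1 m
      rw [coeff_sh, add_mul, one_mul, map_add]
      have h2 : shift a₀ (PowerSeries.coeff m (F j)) =
          PowerSeries.coeff m (F j) + D (PowerSeries.coeff m (F j)) := by
        rw [hDf]
        ring
      rw [h2]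
      congr 1
      cases m with
      | zero => rw [hF0, PowerSeries.coeff_zero_X_mul]
      | succ m => rw [hFs, PowerSeries.coeff_succ_X_mul]
    rw [RingHom.map_det]
    have h3 : (sh a₀).mapMatrix M = (1 + PowerSeries.X : PowerSeries (MvPolynomial σ k)) • M := by
      ext1 i j
      rw [RingHom.mapMatrix_apply, Matrix.map_apply, Matrix.smul_apply]
      change sh a₀ (sh (p i) (F j)) = (1 + PowerSeries.X) * sh (p i) (F j)
      rw [sh_comm, h1, map_mul, map_add, map_one, sh_X]
    rw [h3, Matrix.det_smul, Fintype.card_fin]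
  set Φ₀ : MvPolynomial σ k := PowerSeries.coeff 0 M.det with hΦ₀
  have hne : Φ₀ ≠ 0 := by
    intro h0
    apply hp
    have h1 : Φ₀ = (Matrix.of fun i j => shift (p i) (PowerSeries.coeff 0 (F j))).det := by
      rw [hΦ₀, PowerSeries.coeff_zero_eq_constantCoeff_apply, RingHom.map_det]
      congr 1
      ext1 i j
      rw [RingHom.mapMatrix_apply, Matrix.map_apply]
      change PowerSeries.constantCoeff (sh (p i) (F j)) = shift (p i) (PowerSeries.coeff 0 (F j))
      rw [← PowerSeries.coeff_zero_eq_constantCoeff_apply, coeff_sh]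
    have h2 := congrArg (eval (0 : σ → k)) h1
    rw [h0, map_zero, RingHom.map_det] at h2
    rw [h2]
    congr 1
    ext1 i j
    rw [RingHom.mapMatrix_apply, Matrix.map_apply]
    exact (eval_zero_shift (p i) _).symm
  have hinv : ∀ a, shift a Φ₀ = Φ₀ := by
    intro a
    have h1 := congrArg (PowerSeries.coeff 0) (hsh a)
    rw [coeff_sh, PowerSeries.coeff_zero_eq_constantCoeff_apply (φ := _ * _), map_mul,
      ← PowerSeries.coeff_zero_eq_constantCoeff_apply,
      ← PowerSeries.coeff_zero_eq_constantCoeff_apply, PowerSeries.coeff_map] at h1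
    have h2 := eq_one_of_shift a hne h1
    rw [h2, C_1, one_mul] at h1
    exact h1
  obtain ⟨γ, hγ⟩ := eq_C_of_shift Φ₀ fun i => hinv _
  refine ⟨b, M.det, γ, hb, ?_, hγ, fun a => ⟨χ a, hsh a⟩, hsh0, ?_⟩
  · rintro rfl
    exact hne (by rw [hγ, C_0])
  · refine ph_det M fun i j m => ?_
    change PowerSeries.coeff m (sh (p i) (F j)) ∈ E
    rw [coeff_sh]
    exact hE _ _ (hFE j m)

end Pool.Agent.Helper93.KN
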