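import Pool.Agent.Helper93.KN.Chain

set_option autoImplicit false

/-! Module KN-04. The module of power series `Φ` with `D Φ = T Φ` is free of finite rank.

PROOF. Take `C` from `exists_seq`, `b = finrank C ≥ 1`, a basis `e` of `C` and for every `j` a sequence
`F j` with `F j 0 = e j` (a power series: `PowerSeries.mk`). Let `Φ` be as in the last statement. Then
`Φ₀ ∈ C`, `Φ₀ = ∑ γ_{j,0} e_j`, and `Φ - ∑ γ_{j,0} F_j = T Φ⁽¹⁾` where `Φ⁽¹⁾` has the same property (its
coefficients are those of index `m + 1`). Iterate (define the sequence `Φ⁽ⁿ⁾` by recursion in the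
subtype) and put `γ_j = ∑ γ_{j,n} Tⁿ`. Compare coefficients: by induction on `n`,
`Φ = ∑_{i<n} Tⁱ ∑_j γ_{j,i} F_j + Tⁿ Φ⁽ⁿ⁾`. -/

namespace Pool.Agent.Helper93.KN

open Module

section

variable {k V : Type*} [Field k] [AddCommGroup V] [Module k V] (D : V →ₗ[k] V)
  (E : Submodule k V)

/-- A sequence which is mapped by `D` to its shift. -/
private def PGood (s : ℕ → V) : Prop :=
  (∀ m, s m ∈ E) ∧ (∀ m, D (s (m + 1)) = s m) ∧ D (s 0) = 0

private theorem pgood_step {b : ℕ} (F : Fin b → ℕ → V) (hF : ∀ j, PGood D E (F j))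
    (hrep : ∀ s, PGood D E s → ∃ c : Fin b → k, s 0 = ∑ j, c j • F j 0)
    (s : ℕ → V) (hs : PGood D E s) :
    ∃ (c : Fin b → k) (s' : ℕ → V), PGood D E s' ∧ s 0 = ∑ j, c j • F j 0 ∧
      ∀ m, s (m + 1) = s' m + ∑ j, c j • F j (m + 1) := by
  obtain ⟨c, hc⟩ := hrep s hs
  refine ⟨c, fun m => s (m + 1) - ∑ j, c j • F j (m + 1), ⟨?_, ?_, ?_⟩, hc, ?_⟩
  · intro m
    exact E.sub_mem (hs.1 _) (E.sum_mem fun j _ => E.smul_mem _ ((hF j).1 _))
  · intro m
    show D (s (m + 1 + 1) - ∑ j, c j • F j (m + 1 + 1)) = s (m + 1) - ∑ j, c j • F j (m + 1)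
    rw [map_sub, map_sum, hs.2.1]
    congr 1
    refine Finset.sum_congr rfl fun j _ => ?_
    rw [map_smul, (hF j).2.1]
  · show D (s (0 + 1) - ∑ j, c j • F j (0 + 1)) = 0
    rw [map_sub, map_sum, hs.2.1, hc, sub_eq_zero]
    refine Finset.sum_congr rfl fun j _ => ?_
    rw [map_smul, (hF j).2.1]
  · intro m
    exact (sub_add_cancel _ _).symm

private theorem pgood_expand {b : ℕ} (F : Fin b → ℕ → V) (hF : ∀ j, PGood D E (F j))
    (hrep : ∀ s, PGood D E s → ∃ c : Fin b → k, s 0 = ∑ j, c j • F j 0)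
    (s : ℕ → V) (hs : PGood D E s) :
    ∃ γ : ℕ → Fin b → k, ∀ m, s m = ∑ i ∈ Finset.range (m + 1), ∑ j, γ i j • F j (m - i) := by
  classical
  choose! c nx h1 h2 h3 using pgood_step D E F hF hrep
  have hgood : ∀ n : ℕ, PGood D E (nx^[n] s) := by
    intro n
    induction n with
    | zero => exact hs
    | succ n ih =>
      rw [Function.iterate_succ_apply']
      exact h1 _ ih
  have hmain : ∀ m n : ℕ, (nx^[n] s) m =
      ∑ i ∈ Finset.range (m + 1), ∑ j, c (nx^[n + i] s) j • F j (m - i) := by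
    intro m
    induction m with
    | zero =>
      intro n
      rw [zero_add, Finset.sum_range_one, add_zero]
      exact h2 _ (hgood n)
    | succ m ih =>
      intro n
      rw [Finset.sum_range_succ', h3 _ (hgood n) m]
      have h4 := ih (n + 1)
      rw [Function.iterate_succ_apply'] at h4
      rw [h4, add_zero, Nat.sub_zero]
      congr 1
      refine Finset.sum_congr rfl fun i _ => ?_
      have h5 : m + 1 - (i + 1) = m - i := by omega
      have h6 : n + 1 + i = n + (i + 1) := by omega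
      rw [h5, h6]
  refine ⟨fun i => c (nx^[i] s), fun m => ?_⟩
  have h4 := hmain m 0
  simp only [zero_add] at h4
  exact h4

end

theorem exists_series {k S : Type*} [Field k] [CommRing S] [Algebra k S] (D : S →ₗ[k] S)
    (E : Submodule k S) (hDE : ∀ f ∈ E, D f ∈ E) (hnil : ∀ f ∈ E, ∃ m : ℕ, (D ^ m) f = 0)
    (hfin : FiniteDimensional k (E ⊓ LinearMap.ker D : Submodule k S))
    (hinf : ¬ FiniteDimensional k E) :
    ∃ (b : ℕ) (F : Fin b → PowerSeries S), 0 < b ∧ (∀ j m, PowerSeries.coeff m (F j) ∈ E) ∧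
      (∀ j m, D (PowerSeries.coeff (m + 1) (F j)) = PowerSeries.coeff m (F j)) ∧
      (∀ j, D (PowerSeries.coeff 0 (F j)) = 0) ∧
      LinearIndependent k (fun j => PowerSeries.coeff 0 (F j)) ∧
      ∀ Φ : PowerSeries S, (∀ m, PowerSeries.coeff m Φ ∈ E) →
        (∀ m, D (PowerSeries.coeff (m + 1) Φ) = PowerSeries.coeff m Φ) →
        D (PowerSeries.coeff 0 Φ) = 0 →
        ∃ γ : Fin b → PowerSeries k,
          Φ = ∑ j, PowerSeries.map (algebraMap k S) (γ j) * F j := by
  obtain ⟨C, hC1, hC2, hC3, hC4⟩ := exists_seq D E hDE hnil hfin hinf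
  have hCfin : FiniteDimensional k C := Submodule.finiteDimensional_of_le hC1
  obtain ⟨e⟩ : Nonempty (Basis (Fin (finrank k C)) k C) := ⟨finBasis k C⟩
  have hF : ∀ j, ∃ F : ℕ → S, F 0 = (e j : S) ∧ (∀ m, F m ∈ E) ∧ ∀ m, D (F (m + 1)) = F m :=
    fun j => hC3 _ (e j).2
  choose F hF0 hFE hFD using hF
  have hker : ∀ j, D (F j 0) = 0 := by
    intro j
    rw [hF0 j]
    exact (hC1 (e j).2).2
  refine ⟨finrank k C, fun j => PowerSeries.mk (F j), ?_, ?_, ?_, ?_, ?_, ?_⟩
  · rw [Nat.pos_iff_ne_zero]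
    intro h0
    exact hC2 (Submodule.finrank_eq_zero.1 h0)
  · intro j m
    rw [PowerSeries.coeff_mk]
    exact hFE j m
  · intro j m
    rw [PowerSeries.coeff_mk, PowerSeries.coeff_mk]
    exact hFD j m
  · intro j
    rw [PowerSeries.coeff_mk]
    exact hker j
  · have h1 : (fun j => PowerSeries.coeff 0 (PowerSeries.mk (F j))) = fun j => ((e j : C) : S) := by
      funext j
      rw [PowerSeries.coeff_mk]
      exact hF0 j
    rw [h1]
    exact e.linearIndependent.map' C.subtype (Submodule.ker_subtype C)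
  · intro Φ h1 h2 h3
    have hrep : ∀ s, PGood D E s → ∃ c : Fin (finrank k C) → k, s 0 = ∑ j, c j • F j 0 := by
      intro s hs
      have h4 : s 0 ∈ C := hC4 s hs.1 hs.2.1 hs.2.2
      refine ⟨fun j => e.repr ⟨s 0, h4⟩ j, ?_⟩
      have h5 := congrArg (fun z : C => (z : S)) (e.sum_repr ⟨s 0, h4⟩)
      simp only [Submodule.coe_sum, Submodule.coe_smul] at h5
      refine h5.symm.trans (Finset.sum_congr rfl fun j _ => ?_)
      rw [hF0 j]
    obtain ⟨γ, hγ⟩ := pgood_expand D E F (fun j => ⟨hFE j, hFD j, hker j⟩) hrep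
      (fun m => PowerSeries.coeff m Φ) ⟨h1, h2, h3⟩
    refine ⟨fun j => PowerSeries.mk fun i => γ i j, ?_⟩
    ext m
    rw [hγ m, map_sum, Finset.sum_comm]
    refine Finset.sum_congr rfl fun j _ => ?_
    rw [PowerSeries.coeff_mul, Finset.Nat.sum_antidiagonal_eq_sum_range_succ_mk]
    refine Finset.sum_congr rfl fun i _ => ?_
    rw [PowerSeries.coeff_map, PowerSeries.coeff_mk, PowerSeries.coeff_mk, Algebra.smul_def]

end Pool.Agent.Helper93.KN
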