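import Pool.Agent.Helper93.KN.Heart
import Pool.Agent.Helper93.KN.Deriv

set_option autoImplicit false

/-! Module KN-09. Growth of `filtAll` in adapted coordinates `(w, z) = (X (inl _), X (inr _))`.

PROOF. The restriction of `v i` to the polynomials in the `z` (`f ↦ v i (rename Sum.inr f)`) is a
`PVal k β` (translations: `rename Sum.inr (shift c f) = shift (Sum.elim 0 c) (rename Sum.inr f)`). By
`heart` and `hβ` the space `E` of all `g : MvPolynomial β k` with `(v i).Ge (-(a i)) (rename inr g)` for all
`i` is finite dimensional, of dimension `e`. Write `f ∈ MvPolynomial (α ⊕ β) k` as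
`∑_ξ w^ξ g_ξ(z)`, `ξ : α →₀ ℕ` (`MvPolynomial.sumAlgEquiv` or `sumToIter`).
Claim: if `f ∈ filtAll v a` then all `g_ξ ∈ E`. Induction on the degree in `w` of `f`: let `d` be this
degree and `|ξ| = d`. The iterated derivative `∂_w^ξ f` is `ξ! g_ξ` (in characteristic `0`, `ξ! ≠ 0`),
and has `Ge (-(a i))` by `PVal.Ge.pderiv`; so `g_ξ ∈ E`. `w^ξ g_ξ` has `Ge (-(a i))` by `hα`. Subtract these
terms for all `|ξ| = d`. Now if `totalDegree f ≤ T`, then only `ξ` with all `ξ_j ≤ T` occur: the
linear map `f ↦ (g_ξ)_ξ` to `(Set of functions α → {0..T}) → E` is injective: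
`sdim ≤ (T + 1) ^ card α * e`. Helpful: `Pool.Agent.Helper92.Weak.sdim_le_of_injective`,
`sdim_le_card_mul`. -/

namespace Pool.Agent.Helper93.KN

open MvPolynomial Pool.Agent.Helper92.Weak

section aux

variable {k α β : Type*} [Field k]

/-- The restriction of a valuation to the polynomials in the second group of variables. -/
private noncomputable def resR (v : PVal k (α ⊕ β)) : PVal k β where
  toFun f := v (rename Sum.inr f)
  map_zero' := by simp
  map_mul' f g hf hg := by
    have hi := rename_injective (R := k) (Sum.inr : β → α ⊕ β) Sum.inr_injective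
    rw [map_mul]
    exact v.map_mul ((map_ne_zero_iff _ hi).2 hf) ((map_ne_zero_iff _ hi).2 hg)
  map_add' f g hf hg hfg := by
    have hi := rename_injective (R := k) (Sum.inr : β → α ⊕ β) Sum.inr_injective
    rw [map_add]
    refine v.map_add' _ _ ((map_ne_zero_iff _ hi).2 hf) ((map_ne_zero_iff _ hi).2 hg) ?_
    rw [← map_add]
    exact (map_ne_zero_iff _ hi).2 hfg
  map_C' c := by simp
  map_shift' c f := by
    have h : (rename (Sum.inr : β → α ⊕ β)).comp (shift c) =
        (shift (Sum.elim 0 c)).comp (rename (R := k) (Sum.inr : β → α ⊕ β)) := by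
      apply algHom_ext
      intro i
      simp
    have h1 := DFunLike.congr_fun h f
    change rename Sum.inr (shift c f) = shift (Sum.elim 0 c) (rename Sum.inr f) at h1
    rw [h1, v.map_shift]

private lemma resR_ge {v : PVal k (α ⊕ β)} {n : ℚ} {g : MvPolynomial β k} :
    (resR v).Ge n g ↔ v.Ge n (rename Sum.inr g) := by
  have hi := rename_injective (R := k) (Sum.inr : β → α ⊕ β) Sum.inr_injective
  unfold PVal.Ge
  rw [map_eq_zero_iff _ hi]
  rfl

/-- the equivalence with the iterated polynomials -/
private noncomputable def phi : MvPolynomial (α ⊕ β) k ≃ₐ[k] MvPolynomial α (MvPolynomial β k) :=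
  sumAlgEquiv k α β

private lemma phi_symm_C (g : MvPolynomial β k) :
    (phi (α := α)).symm (C g) = rename Sum.inr g := by
  rw [AlgEquiv.symm_apply_eq]
  have h := DFunLike.congr_fun (sumAlgEquiv_comp_rename_inr (R := k) (S₁ := α) (S₂ := β)) g
  exact h.symm

private lemma phi_pderiv [DecidableEq α] [DecidableEq β] (j : α) (f : MvPolynomial (α ⊕ β) k) :
    phi (pderiv (Sum.inl j) f) = pderiv j (phi f) := by
  unfold phi
  induction f using MvPolynomial.induction_on with
  | C a => simp
  | add p q hp hq => rw [map_add, map_add, map_add, map_add, hp, hq]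
  | mul_X p i hp =>
    rw [pderiv_mul, map_add, map_mul, map_mul, map_mul, pderiv_mul, hp]
    congr 2
    rcases i with i | b
    · rw [sumAlgEquiv_X_inl]
      by_cases hij : j = i
      · subst hij
        simp
      · rw [pderiv_X_of_ne (fun h => hij (Sum.inl_injective h).symm), map_zero,
          pderiv_X_of_ne (Ne.symm hij)]
    · rw [sumAlgEquiv_X_inr, pderiv_C, pderiv_X_of_ne (by simp), map_zero]

/-- the coefficients of a polynomial of bounded degree -/
private lemma phi_coeff [Fintype α] [Fintype β] {T : ℕ} {f : MvPolynomial (α ⊕ β) k}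
    (hf : f.totalDegree ≤ T) {ξ : α →₀ ℕ} (hξ : coeff ξ (phi f) ≠ 0) (j : α) : ξ j ≤ T := by
  classical
  by_contra hj
  push Not at hj
  apply hξ
  rw [f.as_sum, map_sum, coeff_sum]
  refine Finset.sum_eq_zero fun m hm => ?_
  have h1 : (monomial m (coeff m f) : MvPolynomial (α ⊕ β) k) =
      C (coeff m f) * ((∏ j, X (Sum.inl j) ^ m (Sum.inl j)) * ∏ b, X (Sum.inr b) ^ m (Sum.inr b)) := by
    rw [monomial_eq, Finsupp.prod_fintype _ _ (fun _ => pow_zero _), Fintype.prod_sum_type]
  have h2 : phi (monomial m (coeff m f)) =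
      monomial (Finsupp.equivFunOnFinite.symm fun j => m (Sum.inl j))
        (C (coeff m f) * ∏ b, X b ^ m (Sum.inr b)) := by
    rw [h1, monomial_eq, Finsupp.prod_fintype _ _ (fun _ => pow_zero _)]
    unfold phi
    simp only [map_mul, map_prod, map_pow, sumAlgEquiv_C_inl, sumAlgEquiv_X_inl,
      sumAlgEquiv_X_inr, Finsupp.equivFunOnFinite_symm_apply_apply]
    ring
  rw [h2, coeff_monomial, if_neg]
  intro h3
  have h4 : m (Sum.inl j) = ξ j := by
    rw [← h3]
    rfl
  have h5 := (le_totalDegree hm).trans hf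
  have h6 : m (Sum.inl j) ≤ m.sum fun _ e => e := by
    rw [Finsupp.sum_fintype _ _ (fun _ => rfl)]
    exact Finset.single_le_sum (f := fun i => m i) (fun _ _ => Nat.zero_le _) (Finset.mem_univ _)
  omega

end aux

theorem split_growth {k ι α β : Type*} [Field k] [CharZero k] [Fintype α] [Fintype β]
    (v : ι → PVal k (α ⊕ β)) (hα : ∀ i j, (v i).Ge 0 (X (Sum.inl j)))
    (hβ : ∀ c : β → k, (∀ i, (v i).Ge 0 (∑ j, C (c j) * X (Sum.inr j))) → c = 0) (a : ι → ℚ) :
    ∃ C : ℕ, ∀ T : ℕ, sdim (filtAll v a ⊓ restrictTotalDegree (α ⊕ β) k T) ≤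
      (C : ℕ∞) * ((T : ℕ∞) + 1) ^ Fintype.card α := by
  classical
  set E : Submodule k (MvPolynomial β k) := filtAll (fun i => resR (v i)) a with hE
  have hfin : FiniteDimensional k E := by
    apply heart
    intro c hc
    apply hβ c
    intro i
    have h1 := resR_ge.1 (hc i)
    rw [map_sum] at h1
    simpa using h1
  have hmemE : ∀ g, g ∈ E ↔ rename Sum.inr g ∈ filtAll v a := by
    intro g
    rw [hE, mem_filtAll, mem_filtAll]
    exact forall_congr' fun i => resR_ge
  -- the monomials
  have hmono : ∀ (ξ : α →₀ ℕ) (g : MvPolynomial β k), g ∈ E →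
      phi.symm (monomial ξ g) ∈ filtAll v a := by
    intro ξ g hg
    rw [mem_filtAll]
    intro i
    have h1 : phi.symm (monomial ξ g) =
        (∏ j, X (Sum.inl j) ^ ξ j) * (rename Sum.inr g : MvPolynomial (α ⊕ β) k) := by
      rw [monomial_eq, Finsupp.prod_fintype _ _ (fun _ => pow_zero _), map_mul, phi_symm_C,
        mul_comm]
      congr 1
      unfold phi
      simp
    rw [h1]
    have h2 : (v i).Ge (∑ j : α, (ξ j : ℚ) * 0) (∏ j, X (Sum.inl j) ^ ξ j) :=
      PVal.Ge.prod fun j _ => (hα i j).pow (ξ j)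
    have h3 := h2.mul (mem_filtAll.1 ((hmemE g).1 hg) i)
    have h4 : (∑ j : α, (ξ j : ℚ) * 0) + -(a i) = -(a i) := by simp
    rw [h4] at h3
    exact h3
  -- the coefficients
  have hcoef : ∀ n : ℕ, ∀ f ∈ filtAll v a, (∀ ξ, coeff ξ (phi f) ≠ 0 → ξ.degree < n) →
      ∀ ξ, coeff ξ (phi f) ∈ E := by
    intro n
    induction n with
    | zero =>
      intro f _ hd ξ
      by_cases h : coeff ξ (phi f) = 0
      · rw [h]
        exact E.zero_mem
      · exact absurd (hd ξ h) (Nat.not_lt_zero _)
    | succ n ih =>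
      intro f hf hd
      -- the derivatives
      have hpos : ∀ ξ : α →₀ ℕ, ξ ≠ 0 → coeff ξ (phi f) ∈ E := by
        intro ξ hξ
        obtain ⟨j, hj⟩ : ∃ j, ξ j ≠ 0 := by
          by_contra hcon
          push Not at hcon
          exact hξ (Finsupp.ext hcon)
        set η : α →₀ ℕ := ξ - Finsupp.single j 1 with hη
        have hηξ : η + Finsupp.single j 1 = ξ := by
          rw [hη]
          exact tsub_add_cancel_of_le (Finsupp.single_le_iff.2 (Nat.one_le_iff_ne_zero.2 hj))
        have hf' : pderiv (Sum.inl j) f ∈ filtAll v a := by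
          rw [mem_filtAll] at hf ⊢
          exact fun i => (hf i).pderiv _
        have h1 : ∀ ζ : α →₀ ℕ, coeff ζ (phi (pderiv (Sum.inl j) f)) =
            coeff (ζ + Finsupp.single j 1) (phi f) * ((ζ j : MvPolynomial β k) + 1) := by
          intro ζ
          rw [phi_pderiv, coeff_pderiv]
        have h2 := ih _ hf' (by
          intro ζ hζ
          rw [h1] at hζ
          have h3 := hd _ (left_ne_zero_of_mul hζ)
          rw [map_add, Finsupp.degree_single] at h3
          omega) η
        rw [h1, hηξ] at h2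
        have hne : ((η j : k) + 1) ≠ 0 := by
          exact_mod_cast Nat.succ_ne_zero (η j)
        have h4 : coeff ξ (phi f) = ((η j : k) + 1)⁻¹ •
            (coeff ξ (phi f) * ((η j : MvPolynomial β k) + 1)) := by
          have h5 : ((η j : MvPolynomial β k) + 1) = C ((η j : k) + 1) := by simp
          rw [h5, mul_comm, ← smul_eq_C_mul, smul_smul, inv_mul_cancel₀ hne, one_smul]
        rw [h4]
        exact E.smul_mem _ h2
      intro ξ
      by_cases hξ : ξ = 0
      · subst hξ
        rw [hmemE]
        have h1 : (phi f : MvPolynomial α (MvPolynomial β k)) = C (coeff 0 (phi f)) +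
            ∑ ξ ∈ (phi f).support.erase 0, monomial ξ (coeff ξ (phi f)) := by
          by_cases h0 : (0 : α →₀ ℕ) ∈ (phi f).support
          · have h2 := (phi f).as_sum
            rw [← Finset.add_sum_erase _ _ h0] at h2
            exact h2
          · have h2 : coeff 0 (phi f) = 0 := notMem_support_iff.1 h0
            rw [h2, map_zero, zero_add, Finset.erase_eq_of_notMem h0]
            exact (phi f).as_sum
        have h2 : (rename Sum.inr (coeff 0 (phi f)) : MvPolynomial (α ⊕ β) k) = f -
            ∑ ξ ∈ (phi f).support.erase 0, phi.symm (monomial ξ (coeff ξ (phi f))) := by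
          rw [← phi_symm_C, ← map_sum, eq_sub_iff_add_eq, ← map_add, ← h1]
          exact phi.symm_apply_apply f
        rw [h2]
        refine Submodule.sub_mem _ hf (Submodule.sum_mem _ fun ξ hξ => ?_)
        exact hmono ξ _ (hpos ξ (Finset.ne_of_mem_erase hξ))
      · exact hpos ξ hξ
  have hcoef2 : ∀ f ∈ filtAll v a, ∀ ξ, coeff ξ (phi f) ∈ E := by
    intro f hf
    refine hcoef ((phi f).support.sup (fun ξ => ξ.degree) + 1) f hf fun ξ hξ => ?_
    have h1 : ξ.degree ≤ (phi f).support.sup (fun ξ => ξ.degree) :=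
      Finset.le_sup (f := fun ξ : α →₀ ℕ => ξ.degree) (mem_support_iff.2 hξ)
    omega
  -- the dimension
  refine ⟨Module.finrank k E, fun T => ?_⟩
  have hE2 : sdim E = (Module.finrank k E : ℕ∞) := by
    unfold sdim
    rw [← Module.finrank_eq_rank, Cardinal.toENat_nat]
  let L : ↥(filtAll v a ⊓ restrictTotalDegree (α ⊕ β) k T) →ₗ[k] ((α → Fin (T + 1)) →₀ E) :=
    { toFun := fun f => Finsupp.equivFunOnFinite.symm fun η =>
        ⟨coeff (Finsupp.equivFunOnFinite.symm fun j => (η j : ℕ)) (phi f.1),
          hcoef2 f.1 f.2.1 _⟩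
      map_add' := by
        intro f g
        ext η
        simp
      map_smul' := by
        intro c f
        ext η
        simp }
  have hL : Function.Injective L := by
    rw [injective_iff_map_eq_zero]
    intro f hf
    apply Subtype.ext
    have h1 : phi f.1 = 0 := by
      ext1 ξ
      rw [coeff_zero]
      by_contra hne
      have h2 : ∀ j, ξ j ≤ T := phi_coeff ((mem_restrictTotalDegree _ _ _).1 f.2.2) hne
      have h3 := DFunLike.congr_fun hf (fun j => (⟨ξ j, Nat.lt_succ_of_le (h2 j)⟩ : Fin (T + 1)))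
      apply hne
      have h4 := congrArg Subtype.val h3
      have h5 : (Finsupp.equivFunOnFinite.symm fun j => ξ j) = ξ :=
        Finsupp.equivFunOnFinite_symm_coe ξ
      change coeff (Finsupp.equivFunOnFinite.symm fun j => ξ j) (phi f.1) = 0 at h4
      rw [h5] at h4
      exact h4
    have h2 := (map_eq_zero_iff phi phi.injective).1 h1
    exact h2
  have h1 := sdim_le_card_mul L hL
  rw [Fintype.card_fun, Fintype.card_fin, hE2, mul_comm] at h1
  push_cast at h1
  exact h1

end Pool.Agent.Helper93.KN
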