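import Pool.Agent.Helper93.KN.Geo
import Pool.Agent.Helper93.KN.Linear

set_option autoImplicit false

/-! Module KN-12. The upper bound.

PROOF of `comb_empty`: if `f ∈ B.sec (n M + A)` and `f u ≠ 0`, then `(B.v i) (f u) ≤ 0` (`PVal.nonpos`), so
`0 ≤ ⟨w_i, u⟩ + n M_i + A_i` for all `i`. For `A = 0`, `n ≥ 1` divide by `n`: `u / n` is in the polytope.
For general `A` use `Pool.Agent.Helper92.Weak.poly_empty`.
PROOF of `upper`: let `n ≥ 1`, `f ∈ B.sec (n M + A)`. As above `f u = 0` unless `u ∈ S_n` (`Geo.count` with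
`α = A`). For `u ∈ S_n`: `(B.v i) (f u) ≥ -(⟨w_i, u⟩ + n M_i + A_i)`, so for `i ∈ J` it is `≥ -c`
(`Geo.bound`), and for all `i` it is `≥ -(c' n)` (`Geo.bound'`), so `totalDegree (f u) ≤ B.C (c' n + 1)`. So
`f u ∈ filtAll (fun i : J => B.v i) (fun _ => c) ⊓ restrictTotalDegree (B.C * (c' n + 1))`, of dimension
`≤ C'' (B.C (c' n + 1) + 1) ^ ω ≤ C''' n ^ ω` by `growth_upper`. The map `f ↦ (f u)_{u ∈ S_n}` is injective:
`sdim ≤ card S_n * ...` (`sdim_le_card_mul`). For `n = 0`: `B.sec (0 • M + A) ≤ B.sec (1 • M + (A - M))`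
(they are equal), use the bound for `n = 1` and `A - M`. -/

namespace Pool.Agent.Helper93.KN

open Module MvPolynomial Pool.Agent.Helper92.Weak

variable {k : Type*} [Field k] [CharZero k] {r s : ℕ} {H : Type*} [Fintype H]

omit [Fintype H] in
private theorem sec_nonneg (B : BData k r s H) {G : H → ℚ}
    {f : (Fin s → ℤ) →₀ MvPolynomial (Fin r) k} (hf : f ∈ B.sec G) {u : Fin s → ℤ}
    (hu : f u ≠ 0) (i : H) : 0 ≤ pairL (B.w i) (fun l => (u l : ℚ)) + G i := by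
  have h1 := (BData.mem_sec.1 hf) u i
  rw [PVal.ge_iff hu] at h1
  have h2 := PVal.nonpos (B.v i) hu
  have h3 : ((B.v i (f u) : ℤ) : ℚ) ≤ 0 := by exact_mod_cast h2
  linarith

theorem comb_empty (B : BData k r s H) (M : H → ℚ)
    (hP : ¬ ∃ u : Fin s → ℚ, ∀ i, 0 ≤ pairL (B.w i) u + M i) :
    (∀ n : ℕ, 1 ≤ n → B.sec ((n : ℚ) • M) = ⊥) ∧
      ∀ A : H → ℚ, ∃ n₀ : ℕ, ∀ n : ℕ, n₀ ≤ n → B.sec ((n : ℚ) • M + A) = ⊥ := by
  classical
  refine ⟨fun n hn => ?_, fun A => ?_⟩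
  · rw [Submodule.eq_bot_iff]
    intro f hf
    by_contra hne
    obtain ⟨u, hu⟩ : ∃ u, f u ≠ 0 := by
      by_contra hcon
      push Not at hcon
      exact hne (Finsupp.ext hcon)
    apply hP
    have hn0 : (0 : ℚ) < n := by exact_mod_cast hn
    refine ⟨(n : ℚ)⁻¹ • (fun l => (u l : ℚ)), fun i => ?_⟩
    have h1 := sec_nonneg B hf hu i
    rw [Pi.smul_apply, smul_eq_mul] at h1
    rw [map_smul, smul_eq_mul]
    have h2 : (n : ℚ)⁻¹ * pairL (B.w i) (fun l => (u l : ℚ)) + M i =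
        (n : ℚ)⁻¹ * (pairL (B.w i) (fun l => (u l : ℚ)) + n * M i) := by
      field_simp
    rw [h2]
    positivity
  · obtain ⟨m₀, hm₀⟩ := poly_empty (fun i => pairL (B.w i)) M hP A
    refine ⟨m₀, fun n hn => ?_⟩
    rw [Submodule.eq_bot_iff]
    intro f hf
    by_contra hne
    obtain ⟨u, hu⟩ : ∃ u, f u ≠ 0 := by
      by_contra hcon
      push Not at hcon
      exact hne (Finsupp.ext hcon)
    apply hm₀ n hn
    refine ⟨fun l => (u l : ℚ), fun i => ?_⟩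
    have h1 := sec_nonneg B hf hu i
    rw [Pi.add_apply, Pi.smul_apply, smul_eq_mul] at h1
    linarith

private theorem upper_pos {B : BData k r s H} {M : H → ℚ} (𝒢 : Geo B M) (A : H → ℚ) :
    ∃ C : ℕ, ∀ n : ℕ, 1 ≤ n → sdim (B.sec ((n : ℚ) • M + A)) ≤
      (C : ℕ∞) * ((n : ℕ∞) + 1) ^
        (𝒢.ρ + finrank k (linForms fun i : 𝒢.J => B.v i.1)) := by
  classical
  obtain ⟨c, hc⟩ := 𝒢.bound A
  obtain ⟨c', hc'⟩ := 𝒢.bound' A
  obtain ⟨C₁, hC₁⟩ := 𝒢.count A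
  obtain ⟨C₂, hC₂⟩ := growth_upper (fun i : 𝒢.J => B.v i.1) (fun _ => c)
  set ω := finrank k (linForms fun i : 𝒢.J => B.v i.1) with hω
  refine ⟨C₁ * (C₂ * (B.C * (c' + 1) + 1) ^ ω), fun n hn => ?_⟩
  obtain ⟨S, hScard, hS⟩ := hC₁ n hn
  set T := B.C * (c' * n + 1) with hT
  set W := filtAll (fun i : 𝒢.J => B.v i.1) (fun _ => c) ⊓ restrictTotalDegree (Fin r) k T with hW
  have hmem : ∀ f ∈ B.sec ((n : ℚ) • M + A), ∀ u ∈ S, f u ∈ W := by
    intro f hf u hu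
    have h0 := (hS u).1 hu
    have h1 := BData.mem_sec.1 hf u
    rw [hW, Submodule.mem_inf]
    constructor
    · rw [mem_filtAll]
      intro i
      refine (h1 i.1).mono ?_
      have h2 := hc n hn (fun l => (u l : ℚ)) h0 i
      rw [Pi.add_apply, Pi.smul_apply, smul_eq_mul]
      linarith
    · rw [mem_restrictTotalDegree]
      apply B.deg_le
      intro i
      refine (h1 i).mono ?_
      have h2 := hc' n hn (fun l => (u l : ℚ)) h0 i
      rw [Pi.add_apply, Pi.smul_apply, smul_eq_mul]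
      push_cast
      linarith
  have hzero : ∀ f ∈ B.sec ((n : ℚ) • M + A), ∀ u ∉ S, f u = 0 := by
    intro f hf u hu
    by_contra hne
    apply hu
    rw [hS]
    intro i
    have h1 := sec_nonneg B hf hne i
    rw [Pi.add_apply, Pi.smul_apply, smul_eq_mul] at h1
    linarith
  let F : B.sec ((n : ℚ) • M + A) →ₗ[k] (S → W) :=
    { toFun := fun f u => ⟨f.1 u.1, hmem f.1 f.2 u.1 u.2⟩
      map_add' := fun a b => by
        funext u
        ext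
        simp
      map_smul' := fun c a => by
        funext u
        ext
        simp }
  have hF : Function.Injective F := by
    intro a b hab
    apply Subtype.ext
    apply Finsupp.ext
    intro u
    by_cases hu : u ∈ S
    · exact congrArg Subtype.val (congrFun hab ⟨u, hu⟩)
    · rw [hzero _ a.2 u hu, hzero _ b.2 u hu]
  have h := sdim_le_card_mul ((Finsupp.linearEquivFunOnFinite k W S).symm.toLinearMap ∘ₗ F)
    ((Finsupp.linearEquivFunOnFinite k W S).symm.injective.comp hF)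
  rw [Fintype.card_coe] at h
  have h2 := hC₂ T
  have e1 : ((T : ℕ∞) + 1) ≤ ((B.C * (c' + 1) + 1 : ℕ) : ℕ∞) * ((n : ℕ∞) + 1) := by
    have e2 : T + 1 ≤ (B.C * (c' + 1) + 1) * (n + 1) := by
      rw [hT]
      nlinarith [Nat.zero_le (B.C * c'), Nat.zero_le (B.C * n), Nat.zero_le n, Nat.zero_le B.C]
    exact_mod_cast e2
  have e3 : ((S.card : ℕ) : ℕ∞) ≤ (C₁ : ℕ∞) * ((n : ℕ∞) + 1) ^ 𝒢.ρ := by
    have e4 : S.card ≤ C₁ * (n + 1) ^ 𝒢.ρ := by
      refine hScard.trans ?_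
      gcongr
      omega
    exact_mod_cast e4
  calc sdim (B.sec ((n : ℚ) • M + A)) ≤ (S.card : ℕ∞) * sdim W := h
    _ ≤ ((C₁ : ℕ∞) * ((n : ℕ∞) + 1) ^ 𝒢.ρ) * ((C₂ : ℕ∞) * ((T : ℕ∞) + 1) ^ ω) :=
        mul_le_mul' e3 h2
    _ ≤ ((C₁ : ℕ∞) * ((n : ℕ∞) + 1) ^ 𝒢.ρ) *
        ((C₂ : ℕ∞) * (((B.C * (c' + 1) + 1 : ℕ) : ℕ∞) * ((n : ℕ∞) + 1)) ^ ω) := by
        gcongr
    _ = ((C₁ * (C₂ * (B.C * (c' + 1) + 1) ^ ω) : ℕ) : ℕ∞) * ((n : ℕ∞) + 1) ^ (𝒢.ρ + ω) := by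
        rw [mul_pow, pow_add]
        push_cast
        ring

theorem Geo.upper {B : BData k r s H} {M : H → ℚ} (𝒢 : Geo B M) (A : H → ℚ) :
    ∃ C : ℕ, ∀ n : ℕ, sdim (B.sec ((n : ℚ) • M + A)) ≤
      (C : ℕ∞) * ((n : ℕ∞) + 1) ^
        (𝒢.ρ + finrank k (linForms fun i : 𝒢.J => B.v i.1)) := by
  classical
  obtain ⟨C₁, hC₁⟩ := upper_pos 𝒢 A
  obtain ⟨C₂, hC₂⟩ := upper_pos 𝒢 (A - M)
  set e := 𝒢.ρ + finrank k (linForms fun i : 𝒢.J => B.v i.1) with he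
  refine ⟨C₁ + C₂ * 2 ^ e, fun n => ?_⟩
  rcases Nat.eq_zero_or_pos n with hn | hn
  · subst hn
    have h1 := hC₂ 1 le_rfl
    have h2 : ((1 : ℕ) : ℚ) • M + (A - M) = ((0 : ℕ) : ℚ) • M + A := by
      rw [Nat.cast_one, one_smul, Nat.cast_zero, zero_smul, zero_add]
      abel
    rw [h2] at h1
    refine h1.trans ?_
    have e1 : C₂ * (1 + 1) ^ e ≤ (C₁ + C₂ * 2 ^ e) * (0 + 1) ^ e := by
      rw [zero_add, one_pow, mul_one]
      exact Nat.le_add_left _ _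
    exact_mod_cast e1
  · refine (hC₁ n hn).trans ?_
    have e1 : (C₁ : ℕ∞) ≤ ((C₁ + C₂ * 2 ^ e : ℕ) : ℕ∞) := by
      exact_mod_cast Nat.le_add_right _ _
    gcongr

end Pool.Agent.Helper93.KN
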